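import Pool.Agent.K9h56.CR.Max

/-!
The central limit theorem for the walk.
-/

set_option autoImplicit false
set_option linter.all false

namespace Pool.Agent.K9h56.CR

open Real MeasureTheory Set ProbabilityTheory Filter Topology
open Pool.Agent.W40.Ch

/-- the variance of the steps -/
noncomputable def vv : ℝ := ∫ u in (0 : ℝ)..1, (Real.log (yy u) + lam) ^ 2

theorem int_uu (F : ℝ → ℝ) : ∫ x, F x ∂uu = ∫ x in (0 : ℝ)..1, F x := by
  unfold uu
  rw [integral_Icc_eq_integral_Ioc, ← intervalIntegral.integral_of_le (by norm_num)]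

theorem vv_pos : 0 < vv := by
  unfold vv
  apply intervalIntegral.integral_pos (by norm_num)
  · exact ((continuous_log_yy.add continuous_const).pow 2).continuousOn
  · intro x _
    positivity
  · refine ⟨1, ⟨by norm_num, le_rfl⟩, ?_⟩
    have h1 : yy 1 = 3 / 2 := by
      unfold yy
      rw [mul_one, Real.cos_pi]
      norm_num
    rw [h1]
    have h2 : 0 < Real.log (3 / 2 : ℝ) := Real.log_pos (by norm_num)
    have := lam_pos
    positivity

/-- the probability space of the whole walk -/
noncomputable abbrev PP : Measure (ℕ → ℝ) := Measure.infinitePi fun _ : ℕ => uu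

/-- the steps -/
noncomputable def XX (i : ℕ) (ω : ℕ → ℝ) : ℝ := Real.log (yy (ω i))

theorem xx_meas (i : ℕ) : Measurable (XX i) := continuous_log_yy.measurable.comp (measurable_pi_apply i)

theorem xx_indep : iIndepFun XX PP :=
  iIndepFun_infinitePi (P := fun _ : ℕ => uu) (X := fun _ x => Real.log (yy x))
    (fun _ => continuous_log_yy.measurable)

theorem map_eval (i : ℕ) : PP.map (fun ω => ω i) = uu := Measure.infinitePi_map_eval (fun _ : ℕ => uu) i

theorem xx_map (i : ℕ) : PP.map (XX i) = uu.map (fun x => Real.log (yy x)) := by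
  have h := Measure.map_map (μ := PP) (g := fun x => Real.log (yy x)) (f := fun ω : ℕ → ℝ => ω i)
    continuous_log_yy.measurable (measurable_pi_apply i)
  rw [map_eval] at h
  rw [h]
  rfl

theorem xx_ident (i : ℕ) : IdentDistrib (XX i) (XX 0) PP PP :=
  ⟨(xx_meas i).aemeasurable, (xx_meas 0).aemeasurable, by rw [xx_map, xx_map]⟩

theorem int_XX {F : ℝ → ℝ} (hF : Measurable F) : ∫ ω, F (XX 0 ω) ∂PP = ∫ x, F (Real.log (yy x)) ∂uu := by
  have h1 := integral_map (μ := PP) (xx_meas 0).aemeasurable (f := F) hF.aestronglyMeasurable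
  have h2 := integral_map (μ := uu) (φ := fun x => Real.log (yy x))
    continuous_log_yy.measurable.aemeasurable (f := F) hF.aestronglyMeasurable
  rw [← h1, xx_map, h2]

theorem xx_mean : PP[XX 0] = - lam := by
  have h := int_XX (F := fun x => x) measurable_id
  rw [h]
  exact int_log_uu

theorem xx_bdd (ω : ℕ → ℝ) : ‖XX 0 ω‖ ≤ 1 := abs_log_yy _

theorem xx_memLp : MemLp (XX 0) 2 PP :=
  MemLp.of_bound (xx_meas 0).aestronglyMeasurable 1 (Filter.Eventually.of_forall xx_bdd)

theorem xx_var : Var[XX 0; PP] = vv := by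
  rw [variance_eq_integral (xx_meas 0).aemeasurable, xx_mean]
  have h := int_XX (F := fun x => (x - -lam) ^ 2) ((measurable_id.sub_const (-lam)).pow_const 2)
  rw [h, int_uu]
  unfold vv
  simp only [sub_neg_eq_add]

/-- finite pieces -/
theorem map_fin (N : ℕ) : PP.map (fun ω (j : Fin N) => ω j) = pm N := by
  have h1 : iIndepFun (fun (i : ℕ) (ω : ℕ → ℝ) => ω i) PP :=
    iIndepFun_infinitePi (P := fun _ : ℕ => uu) (X := fun _ x => x) (fun _ => measurable_id)
  have h2 : iIndepFun (fun (j : Fin N) (ω : ℕ → ℝ) => ω (j : ℕ)) PP :=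
    h1.precomp (g := fun j : Fin N => (j : ℕ)) Fin.val_injective
  have h3 := (iIndepFun_iff_map_fun_eq_pi_map (fun j : Fin N => (measurable_pi_apply (j : ℕ)).aemeasurable)).1 h2
  rw [h3]
  congr 1
  funext j
  exact map_eval j

theorem lw_sum (N : ℕ) (ω : ℕ → ℝ) : lw N (fun j : Fin N => ω j) N = ∑ k ∈ Finset.range N, XX k ω := by
  unfold lw XX
  rw [← Fin.sum_univ_eq_sum_range (fun k => Real.log (yy (ω k)))]
  apply Finset.sum_congr rfl
  intro j _
  rw [if_pos j.2]

theorem prob_eq (N : ℕ) (x : ℝ) :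
    (pm N).real {u | lw N u N ≤ x} = PP.real {ω | ∑ k ∈ Finset.range N, XX k ω ≤ x} := by
  have hm : MeasurableSet {u : Fin N → ℝ | lw N u N ≤ x} := measurableSet_le (lw_meas N N) measurable_const
  rw [← map_fin, map_measureReal_apply (by fun_prop) hm]
  congr 1
  ext ω
  simp only [mem_preimage, mem_setOf_eq]
  rw [lw_sum]

/-- the normal distribution function with variance `vv` -/
noncomputable def Phi (t : ℝ) : ℝ := (gaussianReal 0 vv.toNNReal).real (Iic t)

theorem vv_ne : vv.toNNReal ≠ 0 := by
  have := vv_pos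
  simp [Real.toNNReal_eq_zero, this]

theorem clt (t : ℝ) : Tendsto (fun n : ℕ => (pm n).real {u | lw n u n ≤ -(n * lam) + t * √(n : ℝ)}) atTop
    (𝓝 (Phi t)) := by
  have hY : HasLaw (id : ℝ → ℝ) (gaussianReal 0 Var[XX 0; PP].toNNReal) (gaussianReal 0 vv.toNNReal) := by
    rw [xx_var]
    exact ⟨measurable_id.aemeasurable, Measure.map_id⟩
  have h := tendstoInDistribution_inv_sqrt_mul_sum_sub hY xx_memLp xx_indep xx_ident
  haveI := nullSingletonClass_gaussianReal (μ := 0) vv_ne
  have h2 := ProbabilityMeasure.tendsto_measure_of_null_frontier_of_tendsto' h.tendsto (E := Iic t) (by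
    simp only [ProbabilityMeasure.coe_mk, Measure.map_id, frontier_Iic]
    exact measure_singleton t)
  simp only [ProbabilityMeasure.coe_mk, Measure.map_id] at h2
  have h3 := (ENNReal.tendsto_toReal (measure_ne_top _ _)).comp h2
  refine (Tendsto.congr' ?_ h3)
  filter_upwards [eventually_gt_atTop 0] with n hn
  have hn0 : (0 : ℝ) < n := by exact_mod_cast hn
  have hs : 0 < √(n : ℝ) := Real.sqrt_pos.2 hn0
  rw [prob_eq]
  simp only [Function.comp_apply, Measure.real]
  congr 1
  have hm : Measurable fun ω : ℕ → ℝ => (√(n : ℝ))⁻¹ * (∑ k ∈ Finset.range n, XX k ω - n * PP[XX 0]) := by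
    apply Measurable.const_mul
    apply Measurable.sub_const
    exact Finset.measurable_sum _ fun k _ => xx_meas k
  rw [Measure.map_apply hm measurableSet_Iic]
  congr 1
  ext ω
  simp only [mem_preimage, mem_Iic, mem_setOf_eq]
  rw [xx_mean, inv_mul_le_iff₀ hs]
  constructor
  · intro h; linarith
  · intro h; linarith

/-- Lipschitz -/
theorem phi_lip {a b : ℝ} (hab : a ≤ b) : Phi b ≤ Phi a + (√(2 * π * vv))⁻¹ * (b - a) := by
  have hv := vv_pos
  have e1 : Phi b = Phi a + (gaussianReal 0 vv.toNNReal).real (Ioc a b) := by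
    unfold Phi
    rw [← measureReal_union]
    · rw [Iic_union_Ioc_eq_Iic hab]
    · rw [Set.disjoint_left]
      intro x hx hx2
      exact absurd hx2.1 (not_lt.2 hx)
    · exact measurableSet_Ioc
  rw [e1]
  have h1 : (gaussianReal 0 vv.toNNReal).real (Ioc a b) ≤ (√(2 * π * vv))⁻¹ * (b - a) := by
    rw [Measure.real, gaussianReal_apply_eq_integral _ vv_ne]
    rw [ENNReal.toReal_ofReal (integral_nonneg fun x => gaussianPDFReal_nonneg _ _ _)]
    have h2 : ∫ x in Ioc a b, gaussianPDFReal 0 vv.toNNReal x ≤ ∫ x in Ioc a b, (√(2 * π * vv))⁻¹ := by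
      apply setIntegral_mono_on (integrable_gaussianPDFReal _ _).integrableOn
        (integrableOn_const (by rw [Real.volume_Ioc]; exact ENNReal.ofReal_ne_top)) measurableSet_Ioc
      intro x _
      rw [gaussianPDFReal, Real.coe_toNNReal _ hv.le]
      have h3 : Real.exp (-(x - 0) ^ 2 / (2 * vv)) ≤ 1 := by
        rw [Real.exp_le_one_iff]
        apply div_nonpos_of_nonpos_of_nonneg
        · linarith [sq_nonneg (x - 0)]
        · positivity
      exact mul_le_of_le_one_right (by positivity) h3
    refine h2.trans (le_of_eq ?_)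
    rw [setIntegral_const, Real.volume_real_Ioc_of_le hab, smul_eq_mul]
    ring
  linarith

end Pool.Agent.K9h56.CR
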