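import Pool.Agent.K9h56.CR.Clt

/-!
The central limit theorem for the time of descent.
-/

set_option autoImplicit false
set_option linter.all false

namespace Pool.Agent.K9h56.CR

open Real MeasureTheory Set ProbabilityTheory Filter Topology
open Pool.Agent.H934R2.Ch (f df hasDerivAt_f continuous_f continuous_df)
open Pool.Agent.W40.Ch

/-- the last height is below `L` -/
def Alow (L : ℕ) : Set (List ℕ) := {h | 0 < h.length ∧ h.getD (h.length - 1) 0 < L}

/-- there are `n + 1` heights and the last one is at least `L` -/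
def Ahigh (L n : ℕ) : Set (List ℕ) := {h | h.length = n + 1 ∧ L ≤ h.getD n 0}

theorem track_low {L : ℕ} (hL : 1 ≤ L) : ∀ (n : ℕ) (x : ℝ), (∃ k : ℕ, k ≤ n ∧ f^[k] x < L) →
    track L n x ∈ Alow L := by
  intro n
  induction n with
  | zero =>
    rintro x ⟨k, hk, h⟩
    obtain rfl : k = 0 := by omega
    rw [track]
    refine ⟨by simp, ?_⟩
    simp only [List.length_singleton, Nat.sub_self, List.getD_cons_zero]
    rw [Nat.floor_lt' (by omega)]
    exact h
  | succ n ih =>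
    rintro x ⟨k, hk, h⟩
    rcases lt_or_ge x (L : ℝ) with hx | hx
    · rw [track_succ_lt hx]
      refine ⟨by simp, ?_⟩
      simp only [List.length_singleton, Nat.sub_self, List.getD_cons_zero]
      rw [Nat.floor_lt' (by omega)]
      exact hx
    · rw [track_succ_ge hx]
      rcases k with _ | k
      · simp only [Function.iterate_zero, id_eq] at h
        linarith
      · rw [Function.iterate_succ_apply] at h
        obtain ⟨h1, h2⟩ := ih (f x) ⟨k, by omega, h⟩
        refine ⟨by simp, ?_⟩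
        have e : (⌊x⌋₊ :: track L n (f x)).length - 1 = ((track L n (f x)).length - 1) + 1 := by
          rw [List.length_cons]
          omega
        rw [e, List.getD_cons_succ]
        exact h2

theorem track_high {L : ℕ} : ∀ (n : ℕ) (x : ℝ), (∀ k : ℕ, k ≤ n → (L : ℝ) ≤ f^[k] x) →
    track L n x ∈ Ahigh L n := by
  intro n
  induction n with
  | zero =>
    intro x h
    rw [track]
    refine ⟨by simp, ?_⟩
    rw [List.getD_cons_zero]
    exact Nat.le_floor (h 0 le_rfl)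
  | succ n ih =>
    intro x h
    have h0 : (L : ℝ) ≤ x := h 0 (Nat.zero_le _)
    rw [track_succ_ge h0]
    obtain ⟨h1, h2⟩ := ih (f x) (fun k hk => by
      have := h (k + 1) (by omega)
      rwa [Function.iterate_succ_apply] at this)
    refine ⟨by simp [h1], ?_⟩
    rw [List.getD_cons_succ]
    exact h2

/-- the orbit has a term below `L` at a time `≤ n` -/
def Dn (L n : ℕ) : Set ℝ := {x | ∃ k : ℕ, k ≤ n ∧ f^[k] x < L}

theorem dn_meas (L n : ℕ) : MeasurableSet (Dn L n) := by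
  have e : Dn L n = ⋃ k : ℕ, ⋃ _ : k ≤ n, (f^[k]) ⁻¹' Iio (L : ℝ) := by
    ext x
    simp only [Dn, mem_setOf_eq, mem_iUnion, exists_prop, mem_preimage, mem_Iio]
  rw [e]
  exact MeasurableSet.iUnion fun k => MeasurableSet.iUnion fun _ =>
    (continuous_f.iterate k).measurable measurableSet_Iio

theorem eta_le {L : ℕ} (hL : 1 ≤ L) : (L : ℝ) ^ (-(1 / 2) : ℝ) ≤ 1 := by
  apply Real.rpow_le_one_of_one_le_of_nonpos
  · exact_mod_cast hL
  · norm_num

theorem desc_up {L m : ℕ} (hL : 1 ≤ L) (hLm : L ≤ m) (n : ℕ) {M : ℝ} (hM : 0 ≤ M) :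
    bb (Dn L n) m ≤ (pm n).real {u | lw n u n ≤ -(Real.log m - Real.log L - 1) + M} + Real.exp (-M) +
      10000 * (L : ℝ) ^ (-(1 / 4) : ℝ) := by
  have h1 : bb (Dn L n) m ≤ bb {x : ℝ | track L n x ∈ Alow L} m := by
    unfold bb
    exact measureReal_mono (inter_subset_inter_left _ fun x hx => track_low hL n x hx) (inter_fin' _ _)
  have h2 := inv_final m L hL hLm n (Alow L)
  have h3 : GG ((L : ℝ) ^ (-(1 / 2) : ℝ)) n (Alow L) (Real.log m) ≤
      (pm n).real {u | ∃ i : ℕ, i ≤ n ∧ lw n u i ≤ -(Real.log m - Real.log L - 1)} := by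
    unfold GG
    refine measureReal_mono ?_ (measure_ne_top _ _)
    rintro u ⟨h, ⟨hA1, hA2⟩, hn1, hn2⟩
    refine ⟨h.length - 1, by omega, ?_⟩
    have h4 := (abs_le.1 (hn2 (h.length - 1) (by omega))).1
    have h5 := eta_le hL
    have h6 : Real.log ((h.getD (h.length - 1) 0 : ℕ) : ℝ) ≤ Real.log L := by
      rcases Nat.eq_zero_or_pos (h.getD (h.length - 1) 0) with h0 | h0
      · rw [h0, Nat.cast_zero, Real.log_zero]
        exact Real.log_nonneg (by exact_mod_cast hL)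
      · apply Real.log_le_log (by exact_mod_cast h0)
        exact_mod_cast hA2.le
    linarith
  have h4 := min_last n (Real.log m - Real.log L - 1) M hM
  linarith

theorem desc_low {L m : ℕ} (hL : 1 ≤ L) (hLm : L ≤ m) (n : ℕ) :
    (pm n).real {u | lw n u n ≤ -(Real.log m - Real.log L) - 2} - 10000 * (L : ℝ) ^ (-(1 / 4) : ℝ) ≤
      bb (Dn L n) m := by
  have h1 : bb (Dn L n)ᶜ m ≤ bb {x : ℝ | track L n x ∈ Ahigh L n} m := by
    unfold bb
    refine measureReal_mono (inter_subset_inter_left _ fun x hx => track_high n x ?_) (inter_fin' _ _)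
    intro k hk
    by_contra hcon
    exact hx ⟨k, hk, not_le.1 hcon⟩
  have h2 := inv_final m L hL hLm n (Ahigh L n)
  have h3 : GG ((L : ℝ) ^ (-(1 / 2) : ℝ)) n (Ahigh L n) (Real.log m) ≤
      (pm n).real {u | lw n u n ≤ -(Real.log m - Real.log L) - 2}ᶜ := by
    unfold GG
    refine measureReal_mono ?_ (measure_ne_top _ _)
    rintro u ⟨h, ⟨hA1, hA2⟩, hn1, hn2⟩
    have h4 := (abs_le.1 (hn2 n (by omega))).2
    have h5 := eta_le hL
    have h6 : Real.log L ≤ Real.log ((h.getD n 0 : ℕ) : ℝ) := by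
      apply Real.log_le_log (by exact_mod_cast hL)
      exact_mod_cast hA2
    simp only [mem_compl_iff, mem_setOf_eq, not_le]
    linarith
  have hm : MeasurableSet {u : Fin n → ℝ | lw n u n ≤ -(Real.log m - Real.log L) - 2} :=
    measurableSet_le (lw_meas n n) measurable_const
  have h4 := probReal_compl_eq_one_sub (μ := pm n) hm
  have h5 : bb (Dn L n)ᶜ m = 1 - bb (Dn L n) m := by
    have h6 := measureReal_inter_add_sdiff (μ := volume) (s := cell m) (t := Dn L n) (dn_meas L n)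
      (fin_of_sub (cell_sub m))
    rw [cell_vol] at h6
    have h7 : bb (Dn L n)ᶜ m = volume.real (cell m \ Dn L n) := by
      unfold bb
      congr 1
      ext x
      simp only [mem_inter_iff, mem_compl_iff, Set.mem_sdiff]
      tauto
    have h8 : bb (Dn L n) m = volume.real (cell m ∩ Dn L n) := by
      unfold bb
      rw [inter_comm]
    linarith
  linarith

/-- the threshold -/
noncomputable def thr (t : ℝ) (m : ℕ) : ℝ := Real.log m / lam + t * √(Real.log m) / (lam * √lam)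

theorem log_tend : Tendsto (fun m : ℕ => Real.log (m : ℝ)) atTop atTop :=
  Real.tendsto_log_atTop.comp tendsto_natCast_atTop_atTop

theorem sqrt_log_tend : Tendsto (fun m : ℕ => √(Real.log (m : ℝ))) atTop atTop :=
  Real.tendsto_sqrt_atTop.comp log_tend

theorem thr_ratio (t : ℝ) : Tendsto (fun m : ℕ => thr t m / Real.log m) atTop (𝓝 (1 / lam)) := by
  have hl := lam_pos
  have h1 : Tendsto (fun m : ℕ => 1 / lam + t / (lam * √lam) * (√(Real.log (m : ℝ)))⁻¹) atTop
      (𝓝 (1 / lam + t / (lam * √lam) * 0)) :=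
    tendsto_const_nhds.add (tendsto_const_nhds.mul (tendsto_inv_atTop_zero.comp sqrt_log_tend))
  rw [mul_zero, add_zero] at h1
  refine Tendsto.congr' ?_ h1
  filter_upwards [log_tend.eventually_gt_atTop 0] with m hm
  have hs : 0 < √(Real.log (m : ℝ)) := Real.sqrt_pos.2 hm
  have hs2 : √(Real.log (m : ℝ)) * √(Real.log (m : ℝ)) = Real.log m := Real.mul_self_sqrt hm.le
  have hsl : 0 < √lam := Real.sqrt_pos.2 hl
  unfold thr
  have e : Real.log (m : ℝ) = √(Real.log (m : ℝ)) ^ 2 := by rw [sq]; exact hs2.symm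
  set y := √(Real.log (m : ℝ)) with hy
  rw [e]
  field_simp

theorem thr_tend (t : ℝ) : Tendsto (fun m : ℕ => thr t m) atTop atTop := by
  have hl := lam_pos
  have h1 := (thr_ratio t).pos_mul_atTop (by positivity) log_tend
  refine Tendsto.congr' ?_ h1
  filter_upwards [log_tend.eventually_gt_atTop 0] with m hm
  field_simp

/-- the square root of the number of steps -/
theorem sqrt_ratio (t : ℝ) : Tendsto (fun m : ℕ => √((⌊thr t m⌋₊ : ℕ) : ℝ) / √(Real.log m)) atTop
    (𝓝 (1 / √lam)) := by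
  have hl := lam_pos
  have h1 : Tendsto (fun m : ℕ => ((⌊thr t m⌋₊ : ℕ) : ℝ) / thr t m) atTop (𝓝 1) :=
    (tendsto_nat_floor_div_atTop (R := ℝ)).comp (thr_tend t)
  have h2 := h1.mul (thr_ratio t)
  rw [one_mul] at h2
  have h3 : Tendsto (fun m : ℕ => √(((⌊thr t m⌋₊ : ℕ) : ℝ) / thr t m * (thr t m / Real.log m))) atTop
      (𝓝 √(1 / lam)) := (Real.continuous_sqrt.tendsto _).comp h2
  rw [Real.sqrt_div zero_le_one, Real.sqrt_one] at h3
  refine Tendsto.congr' ?_ h3
  filter_upwards [log_tend.eventually_gt_atTop 0, (thr_tend t).eventually_gt_atTop 0] with m hm hm2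
  rw [← Real.sqrt_div (by positivity)]
  congr 1
  field_simp

theorem lam_thr (t : ℝ) (m : ℕ) : lam * thr t m = Real.log m + t * √(Real.log m) / √lam := by
  have hl := lam_pos
  have hsl : 0 < √lam := Real.sqrt_pos.2 hl
  unfold thr
  field_simp

/-- first comparison -/
theorem comp_up (t : ℝ) {δ : ℝ} (hδ : 0 < δ) {L : ℕ → ℕ}
    (hL2 : Tendsto (fun m : ℕ => Real.log (L m : ℝ) / √(Real.log m)) atTop (𝓝 0)) :
    ∀ᶠ m : ℕ in atTop, -(Real.log m - Real.log (L m) - 1) + √√(Real.log m) ≤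
      -((⌊thr t m⌋₊ : ℕ) * lam) + (t + δ) * √((⌊thr t m⌋₊ : ℕ) : ℝ) := by
  have hl := lam_pos
  have hsl : 0 < √lam := Real.sqrt_pos.2 hl
  have h1 := (sqrt_ratio t).const_mul (t + δ)
  have h2 : Tendsto (fun m : ℕ => t / √lam + Real.log (L m : ℝ) / √(Real.log m) +
      (√√(Real.log (m : ℝ)))⁻¹ + (√(Real.log (m : ℝ)))⁻¹) atTop (𝓝 (t / √lam + 0 + 0 + 0)) :=
    ((tendsto_const_nhds.add hL2).add
      (tendsto_inv_atTop_zero.comp (Real.tendsto_sqrt_atTop.comp sqrt_log_tend))).add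
      (tendsto_inv_atTop_zero.comp sqrt_log_tend)
  have h3 : t / √lam + 0 + 0 + 0 < (t + δ) * (1 / √lam) := by
    rw [add_zero, add_zero, add_zero, mul_one_div, div_lt_div_iff_of_pos_right hsl]
    linarith
  filter_upwards [h2.eventually_lt h1 h3, log_tend.eventually_gt_atTop 0,
    (thr_tend t).eventually_gt_atTop 0] with m hm hm0 hm1
  have hs : 0 < √(Real.log (m : ℝ)) := Real.sqrt_pos.2 hm0
  have hss : 0 < √√(Real.log (m : ℝ)) := Real.sqrt_pos.2 hs
  have hss2 : √√(Real.log (m : ℝ)) * √√(Real.log (m : ℝ)) = √(Real.log (m : ℝ)) := Real.mul_self_sqrt hs.le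
  have h4 := mul_lt_mul_of_pos_right hm hs
  have e1 : (t / √lam + Real.log (L m : ℝ) / √(Real.log m) +
      (√√(Real.log (m : ℝ)))⁻¹ + (√(Real.log (m : ℝ)))⁻¹) * √(Real.log (m : ℝ)) =
      t * √(Real.log m) / √lam + Real.log (L m) + √√(Real.log m) + 1 := by
    have e2 : (√√(Real.log (m : ℝ)))⁻¹ * √(Real.log (m : ℝ)) = √√(Real.log m) := by
      nth_rewrite 2 [← hss2]
      field_simp
    rw [add_mul, add_mul, add_mul, e2, inv_mul_cancel₀ hs.ne', div_mul_cancel₀ _ hs.ne']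
    ring
  have e3 : (t + δ) * (√((⌊thr t m⌋₊ : ℕ) : ℝ) / √(Real.log m)) * √(Real.log (m : ℝ)) =
      (t + δ) * √((⌊thr t m⌋₊ : ℕ) : ℝ) := by
    rw [mul_assoc, div_mul_cancel₀ _ hs.ne']
  rw [e1, e3] at h4
  have h5 := Nat.floor_le hm1.le
  have h6 : ((⌊thr t m⌋₊ : ℕ) : ℝ) * lam ≤ thr t m * lam := mul_le_mul_of_nonneg_right h5 hl.le
  have h7 := lam_thr t m
  linarith

theorem comp_low (t : ℝ) {δ : ℝ} (hδ : 0 < δ) {L : ℕ → ℕ} (hL1 : ∀ m, 1 ≤ L m) :
    ∀ᶠ m : ℕ in atTop, -((⌊thr t m⌋₊ : ℕ) * lam) + (t - δ) * √((⌊thr t m⌋₊ : ℕ) : ℝ) ≤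
      -(Real.log m - Real.log (L m)) - 2 := by
  have hl := lam_pos
  have hsl : 0 < √lam := Real.sqrt_pos.2 hl
  have h1 := (sqrt_ratio t).const_mul (t - δ)
  have h2 : Tendsto (fun m : ℕ => t / √lam - 3 * (√(Real.log (m : ℝ)))⁻¹) atTop (𝓝 (t / √lam - 3 * 0)) :=
    tendsto_const_nhds.sub (tendsto_const_nhds.mul (tendsto_inv_atTop_zero.comp sqrt_log_tend))
  have h3 : (t - δ) * (1 / √lam) < t / √lam - 3 * 0 := by
    rw [mul_zero, sub_zero, mul_one_div, div_lt_div_iff_of_pos_right hsl]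
    linarith
  filter_upwards [h1.eventually_lt h2 h3, log_tend.eventually_gt_atTop 0,
    (thr_tend t).eventually_gt_atTop 0] with m hm hm0 hm1
  have hs : 0 < √(Real.log (m : ℝ)) := Real.sqrt_pos.2 hm0
  have h4 := mul_lt_mul_of_pos_right hm hs
  have e1 : (t / √lam - 3 * (√(Real.log (m : ℝ)))⁻¹) * √(Real.log (m : ℝ)) =
      t * √(Real.log m) / √lam - 3 := by
    rw [sub_mul, mul_assoc, inv_mul_cancel₀ hs.ne']
    ring
  have e3 : (t - δ) * (√((⌊thr t m⌋₊ : ℕ) : ℝ) / √(Real.log m)) * √(Real.log (m : ℝ)) =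
      (t - δ) * √((⌊thr t m⌋₊ : ℕ) : ℝ) := by
    rw [mul_assoc, div_mul_cancel₀ _ hs.ne']
  rw [e1, e3] at h4
  have h5 := Nat.lt_floor_add_one (thr t m)
  have h6 : thr t m * lam ≤ (((⌊thr t m⌋₊ : ℕ) : ℝ) + 1) * lam := mul_le_mul_of_nonneg_right h5.le hl.le
  have h7 := lam_thr t m
  have h8 := lam_lt
  have h9 : 0 ≤ Real.log (L m : ℝ) := Real.log_nonneg (by exact_mod_cast hL1 m)
  linarith

/-- **the central limit theorem** -/
theorem clt_final (t : ℝ) (L : ℕ → ℕ) (hL1 : ∀ m, 1 ≤ L m)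
    (hL2 : Tendsto (fun m : ℕ => Real.log (L m : ℝ) / √(Real.log m)) atTop (𝓝 0)) {ε : ℝ} (hε : 0 < ε) :
    ∀ᶠ m : ℕ in atTop, |bb (Dn (L m) ⌊thr t m⌋₊) m - Phi t| ≤
      10000 * (L m : ℝ) ^ (-(1 / 4) : ℝ) + ε := by
  have hv := vv_pos
  set c : ℝ := (√(2 * π * vv))⁻¹ with hc
  have hc0 : 0 < c := by positivity
  set δ : ℝ := ε / (4 * c) with hδ
  have hδ0 : 0 < δ := by positivity
  have hcδ : c * δ = ε / 4 := by
    rw [hδ]
    field_simp
  have hn : Tendsto (fun m : ℕ => ⌊thr t m⌋₊) atTop atTop :=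
    tendsto_nat_floor_atTop.comp (thr_tend t)
  have hu := (clt (t + δ)).comp hn
  have hd := (clt (t - δ)).comp hn
  have hexp : Tendsto (fun m : ℕ => Real.exp (-√√(Real.log (m : ℝ)))) atTop (𝓝 0) :=
    Real.tendsto_exp_neg_atTop_nhds_zero.comp (Real.tendsto_sqrt_atTop.comp sqrt_log_tend)
  have hLm : ∀ᶠ m : ℕ in atTop, L m ≤ m := by
    filter_upwards [hL2.eventually_lt_const zero_lt_one, log_tend.eventually_gt_atTop 1,
      eventually_gt_atTop 0] with m hm hm1 hm2
    have hm0 : (0 : ℝ) < m := by exact_mod_cast hm2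
    have hs : 0 < √(Real.log (m : ℝ)) := Real.sqrt_pos.2 (by linarith)
    rw [div_lt_one hs] at hm
    have h1 : √(Real.log (m : ℝ)) ≤ Real.log m := by
      rw [Real.sqrt_le_left (by linarith)]
      nlinarith
    have h2 : Real.log (L m : ℝ) ≤ Real.log m := by linarith
    have hLpos : (0 : ℝ) < L m := by
      have : 0 < L m := hL1 m
      exact_mod_cast this
    have h3 := (Real.log_le_log_iff hLpos hm0).1 h2
    exact_mod_cast h3
  filter_upwards [comp_up t hδ0 hL2, comp_low t hδ0 hL1, hLm,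
    hu.eventually_lt_const (show Phi (t + δ) < Phi (t + δ) + ε / 4 by linarith),
    hd.eventually_const_lt (show Phi (t - δ) - ε / 4 < Phi (t - δ) by linarith),
    hexp.eventually_lt_const (show (0 : ℝ) < ε / 4 by positivity)] with m h1 h2 h3 h4 h5 h6
  have h7 := desc_up (hL1 m) h3 ⌊thr t m⌋₊ (M := √√(Real.log m)) (Real.sqrt_nonneg _)
  have h8 := desc_low (hL1 m) h3 ⌊thr t m⌋₊
  have h9 : (pm ⌊thr t m⌋₊).real {u | lw ⌊thr t m⌋₊ u ⌊thr t m⌋₊ ≤
      -(Real.log m - Real.log (L m) - 1) + √√(Real.log m)} ≤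
      (pm ⌊thr t m⌋₊).real {u | lw ⌊thr t m⌋₊ u ⌊thr t m⌋₊ ≤
        -((⌊thr t m⌋₊ : ℕ) * lam) + (t + δ) * √((⌊thr t m⌋₊ : ℕ) : ℝ)} := by
    refine measureReal_mono ?_ (measure_ne_top _ _)
    intro u hu
    exact le_trans hu h1
  have h10 : (pm ⌊thr t m⌋₊).real {u | lw ⌊thr t m⌋₊ u ⌊thr t m⌋₊ ≤
        -((⌊thr t m⌋₊ : ℕ) * lam) + (t - δ) * √((⌊thr t m⌋₊ : ℕ) : ℝ)} ≤
      (pm ⌊thr t m⌋₊).real {u | lw ⌊thr t m⌋₊ u ⌊thr t m⌋₊ ≤ -(Real.log m - Real.log (L m)) - 2} := by
    refine measureReal_mono ?_ (measure_ne_top _ _)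
    intro u hu
    exact le_trans hu h2
  have h11 := phi_lip (a := t) (b := t + δ) (by linarith)
  have h12 := phi_lip (a := t - δ) (b := t) (by linarith)
  have e1 : c * (t + δ - t) = ε / 4 := by rw [add_sub_cancel_left]; exact hcδ
  have e2 : c * (t - (t - δ)) = ε / 4 := by rw [sub_sub_cancel]; exact hcδ
  rw [← hc, e1] at h11
  rw [← hc, e2] at h12
  simp only [Function.comp_apply] at h4 h5
  rw [abs_le]
  constructor
  · linarith
  · linarith

end Pool.Agent.K9h56.CR
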