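import Pool.Agent.K9h56.CR.CltFin

/-!
The central limit theorem for the time of descent, uniformly in the threshold.
-/

set_option autoImplicit false
set_option linter.all false

namespace Pool.Agent.K9h56.CR

open Real MeasureTheory Set ProbabilityTheory Filter Topology
open Pool.Agent.H934R2.Ch (f df hasDerivAt_f continuous_f continuous_df)
open Pool.Agent.W40.Ch

theorem dn_mono (L : ℕ) {n n' : ℕ} (h : n ≤ n') : Dn L n ⊆ Dn L n' := by
  rintro x ⟨k, hk, h1⟩
  exact ⟨k, hk.trans h, h1⟩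

theorem thr_mono (m : ℕ) {t t' : ℝ} (h : t ≤ t') : thr t m ≤ thr t' m := by
  have hl := lam_pos
  unfold thr
  have h1 : t * √(Real.log m) / (lam * √lam) ≤ t' * √(Real.log m) / (lam * √lam) := by
    apply div_le_div_of_nonneg_right _ (by positivity)
    exact mul_le_mul_of_nonneg_right h (Real.sqrt_nonneg _)
  linarith

theorem fm_mono (L m : ℕ) {t t' : ℝ} (h : t ≤ t') :
    bb (Dn L ⌊thr t m⌋₊) m ≤ bb (Dn L ⌊thr t' m⌋₊) m := by
  unfold bb
  exact measureReal_mono (inter_subset_inter_left _ (dn_mono L (Nat.floor_mono (thr_mono m h)))) (inter_fin' _ _)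

theorem phi_mono {t t' : ℝ} (h : t ≤ t') : Phi t ≤ Phi t' := by
  unfold Phi
  exact measureReal_mono (Iic_subset_Iic.2 h) (measure_ne_top _ _)

theorem phi_top : Tendsto Phi atTop (𝓝 1) := by
  have h := tendsto_measure_Iic_atTop (gaussianReal 0 vv.toNNReal)
  have h2 := (ENNReal.tendsto_toReal (measure_ne_top _ _)).comp h
  simp only [measure_univ, ENNReal.toReal_one] at h2
  exact h2

theorem phi_bot : Tendsto Phi atBot (𝓝 0) := by
  have h := tendsto_cdf_atBot (gaussianReal 0 vv.toNNReal)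
  refine h.congr fun x => ?_
  rw [cdf_eq_real]
  rfl

theorem ev_le {L : ℕ → ℕ} (hL1 : ∀ m, 1 ≤ L m)
    (hL2 : Tendsto (fun m : ℕ => Real.log (L m : ℝ) / √(Real.log m)) atTop (𝓝 0)) :
    ∀ᶠ m : ℕ in atTop, L m ≤ m := by
  filter_upwards [hL2.eventually_lt_const zero_lt_one, log_tend.eventually_gt_atTop 1,
    eventually_gt_atTop 0] with m hm hm1 hm2
  have hm0 : (0 : ℝ) < m := by exact_mod_cast hm2
  have hs : 0 < √(Real.log (m : ℝ)) := Real.sqrt_pos.2 (by linarith)
  rw [div_lt_one hs] at hm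
  have h1 : √(Real.log (m : ℝ)) ≤ Real.log m := by
    rw [Real.sqrt_le_left (by linarith)]
    nlinarith
  have h2 : Real.log (L m : ℝ) ≤ Real.log m := by linarith
  have hLpos : (0 : ℝ) < L m := by
    have : 0 < L m := hL1 m
    exact_mod_cast this
  have h3 := (Real.log_le_log_iff hLpos hm0).1 h2
  exact_mod_cast h3

theorem dn_zero {L m : ℕ} (h : L ≤ m) : bb (Dn L 0) m = 0 := by
  apply bb_zero
  rintro x ⟨k, hk, h1⟩ hx
  obtain rfl : k = 0 := by omega
  simp only [Function.iterate_zero, id_eq] at h1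
  have h2 : (L : ℝ) ≤ m := by exact_mod_cast h
  linarith [hx.1]

/-- **the central limit theorem, uniformly in `t`** -/
theorem clt_unif (L : ℕ → ℕ) (hL1 : ∀ m, 1 ≤ L m)
    (hL2 : Tendsto (fun m : ℕ => Real.log (L m : ℝ) / √(Real.log m)) atTop (𝓝 0)) {ε : ℝ} (hε : 0 < ε) :
    ∀ᶠ m : ℕ in atTop, ∀ t : ℝ, |bb (Dn (L m) ⌊thr t m⌋₊) m - Phi t| ≤
      10000 * (L m : ℝ) ^ (-(1 / 4) : ℝ) + ε := by
  have hv := vv_pos
  set c : ℝ := (√(2 * π * vv))⁻¹ with hc
  have hc0 : 0 < c := by positivity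
  set δ : ℝ := ε / (2 * c) with hδ
  have hδ0 : 0 < δ := by positivity
  have hcδ : c * δ = ε / 2 := by
    rw [hδ]
    field_simp
  obtain ⟨T1, hT1⟩ := (phi_top.eventually_const_lt (show 1 - ε / 2 < 1 by linarith)).exists_forall_of_atTop
  obtain ⟨T2, hT2⟩ := (phi_bot.eventually_lt_const (show (0 : ℝ) < ε / 2 by linarith)).exists_forall_of_atBot
  obtain ⟨K, hK⟩ := exists_nat_ge ((T1 - T2) / δ)
  have hgrid : ∀ᶠ m : ℕ in atTop, ∀ j ∈ Finset.range (K + 2), |bb (Dn (L m) ⌊thr (T2 + j * δ) m⌋₊) m -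
      Phi (T2 + j * δ)| ≤ 10000 * (L m : ℝ) ^ (-(1 / 4) : ℝ) + ε / 2 := by
    rw [Filter.eventually_all_finset]
    intro j _
    exact clt_final (T2 + j * δ) L hL1 hL2 (by linarith)
  filter_upwards [hgrid] with m hm t
  have hLp : 0 ≤ (L m : ℝ) ^ (-(1 / 4) : ℝ) := by positivity
  have hF0 : 0 ≤ bb (Dn (L m) ⌊thr t m⌋₊) m := bb_nonneg _ _
  have hF1 : bb (Dn (L m) ⌊thr t m⌋₊) m ≤ 1 := bb_le_one _ _
  have hP0 : 0 ≤ Phi t := measureReal_nonneg
  have hP1 : Phi t ≤ 1 := measureReal_le_one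
  rcases lt_or_ge t T2 with h | h
  · -- far to the left
    have h1 := (abs_le.1 (hm 0 (by simp))).2
    simp only [Nat.cast_zero, zero_mul, add_zero] at h1
    have h2 := fm_mono (L m) m h.le
    have h3 := hT2 T2 le_rfl
    have h4 := phi_mono h.le
    rw [abs_le]
    constructor <;> linarith
  rcases lt_or_ge T1 t with h' | h'
  · -- far to the right
    have h1 := (abs_le.1 (hm K (by simp))).1
    have h2 : T1 ≤ T2 + K * δ := by
      rw [div_le_iff₀ hδ0] at hK
      linarith
    -- use the last grid point below or above `t`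
    have h3 := hT1 T1 le_rfl
    have h5 := phi_mono h'.le
    -- the grid point `jj`, the first one `≥ T1`
    rw [abs_le]
    constructor
    · -- lower bound for F: there is a grid point in `[T1 - δ, T1]`
      rcases le_or_gt (T2 + K * δ) t with hb | hb
      · have h6 := fm_mono (L m) m hb
        have h7 := phi_mono h2
        linarith
      · -- choose `j` with `T2 + j δ ≤ t < T2 + (j+1) δ`
        set j : ℕ := ⌊(t - T2) / δ⌋₊ with hj
        have hj1 : (j : ℝ) ≤ (t - T2) / δ := Nat.floor_le (div_nonneg (by linarith) hδ0.le)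
        have hj2 : (t - T2) / δ < j + 1 := Nat.lt_floor_add_one _
        rw [le_div_iff₀ hδ0] at hj1
        rw [div_lt_iff₀ hδ0] at hj2
        have hjK : j < K + 2 := by
          have : (j : ℝ) * δ < K * δ := by linarith
          have h8 : (j : ℝ) < K := lt_of_mul_lt_mul_right this hδ0.le
          have h9 : j < K := by exact_mod_cast h8
          omega
        have h6 := (abs_le.1 (hm j (Finset.mem_range.2 hjK))).1
        have h7 := fm_mono (L m) m (show T2 + j * δ ≤ t by linarith)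
        have h8 := phi_lip (a := T2 + j * δ) (b := t) (by linarith)
        rw [← hc] at h8
        have h9 : c * (t - (T2 + j * δ)) ≤ c * δ := mul_le_mul_of_nonneg_left (by linarith) hc0.le
        linarith
    · linarith
  · -- in the middle
    set j : ℕ := ⌊(t - T2) / δ⌋₊ with hj
    have hj1 : (j : ℝ) ≤ (t - T2) / δ := Nat.floor_le (div_nonneg (by linarith) hδ0.le)
    have hj2 : (t - T2) / δ < j + 1 := Nat.lt_floor_add_one _
    rw [le_div_iff₀ hδ0] at hj1
    rw [div_lt_iff₀ hδ0] at hj2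
    have hjK : j < K + 1 := by
      rw [div_le_iff₀ hδ0] at hK
      have : (j : ℝ) * δ ≤ K * δ := by linarith
      have h8 : (j : ℝ) ≤ K := le_of_mul_le_mul_right this hδ0
      have h9 : j ≤ K := by exact_mod_cast h8
      omega
    have h6 := (abs_le.1 (hm j (Finset.mem_range.2 (by omega)))).1
    have h6' := (abs_le.1 (hm (j + 1) (Finset.mem_range.2 (by omega)))).2
    push_cast at h6'
    have h7 := fm_mono (L m) m (show T2 + j * δ ≤ t by linarith)
    have h7' := fm_mono (L m) m (show t ≤ T2 + (j + 1) * δ by linarith)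
    have h8 := phi_lip (a := T2 + j * δ) (b := t) (by linarith)
    have h8' := phi_lip (a := t) (b := T2 + (j + 1) * δ) (by linarith)
    rw [← hc] at h8 h8'
    have h9 : c * (t - (T2 + j * δ)) ≤ c * δ := mul_le_mul_of_nonneg_left (by linarith) hc0.le
    have h9' : c * (T2 + (j + 1) * δ - t) ≤ c * δ := mul_le_mul_of_nonneg_left (by linarith) hc0.le
    rw [abs_le]
    constructor
    · linarith
    · linarith

end Pool.Agent.K9h56.CR
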