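import Pool.Agent.K9h56.CR.Path

/-!
The probability that the orbit exceeds a level before it falls below `L`.
-/

set_option autoImplicit false
set_option linter.all false

namespace Pool.Agent.K9h56.CR

open Real MeasureTheory Set
open Pool.Agent.H934R2.Ch (f df hasDerivAt_f continuous_f continuous_df)
open Pool.Agent.W40.Ch

/-- the orbit exceeds `B` at some time `k ≤ n` before it falls below `L` -/
def Ex (L : ℕ) (B : ℝ) (n : ℕ) : Set ℝ :=
  {x | ∃ k : ℕ, k ≤ n ∧ (∀ i : ℕ, i < k → (L : ℝ) ≤ f^[i] x) ∧ B ≤ f^[k] x}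

theorem ex_meas (L : ℕ) (B : ℝ) (n : ℕ) : MeasurableSet (Ex L B n) := by
  have e : Ex L B n = ⋃ k : ℕ, ⋃ _ : k ≤ n, (⋂ i : ℕ, ⋂ _ : i < k, (f^[i]) ⁻¹' Ici (L : ℝ)) ∩
      (f^[k]) ⁻¹' Ici B := by
    ext x
    simp only [Ex, mem_setOf_eq, mem_iUnion, exists_prop, mem_inter_iff, mem_iInter, mem_preimage, mem_Ici]
  rw [e]
  exact MeasurableSet.iUnion fun k => MeasurableSet.iUnion fun _ =>
    (MeasurableSet.iInter fun i => MeasurableSet.iInter fun _ =>
      (continuous_f.iterate i).measurable measurableSet_Ici).inter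
    ((continuous_f.iterate k).measurable measurableSet_Ici)

theorem ex_step {L : ℕ} {B : ℝ} {n : ℕ} {x : ℝ} (h : x ∈ Ex L B (n + 1)) (hx : x < B) :
    (L : ℝ) ≤ x ∧ f x ∈ Ex L B n := by
  obtain ⟨k, hk, h1, h2⟩ := h
  rcases Nat.eq_zero_or_pos k with h0 | h0
  · subst h0
    simp at h2
    linarith
  · obtain ⟨j, rfl⟩ : ∃ j, k = j + 1 := ⟨k - 1, by omega⟩
    refine ⟨h1 0 (by omega), j, by omega, fun i hi => ?_, ?_⟩
    · have := h1 (i + 1) (by omega)
      rwa [Function.iterate_succ_apply] at this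
    · rwa [Function.iterate_succ_apply] at h2

theorem ex_back {L : ℕ} {B : ℝ} {n : ℕ} {x : ℝ} (hx : (L : ℝ) ≤ x) (h : f x ∈ Ex L B n) :
    x ∈ Ex L B (n + 1) := by
  obtain ⟨k, hk, h1, h2⟩ := h
  refine ⟨k + 1, by omega, fun i hi => ?_, ?_⟩
  · rcases Nat.eq_zero_or_pos i with h0 | h0
    · subst h0; simpa using hx
    · obtain ⟨j, rfl⟩ : ∃ j, i = j + 1 := ⟨i - 1, by omega⟩
      rw [Function.iterate_succ_apply]
      exact h1 j (by omega)
  · rw [Function.iterate_succ_apply]
    exact h2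

theorem ex_mono {L : ℕ} {B : ℝ} : Monotone (Ex L B) := by
  intro a b hab x hx
  obtain ⟨k, hk, h1, h2⟩ := hx
  exact ⟨k, hk.trans hab, h1, h2⟩

theorem pre_compl {S : Set ℝ} (hS : MeasurableSet S) {m : ℕ} (hm : 13824 ≤ m) :
    P (bb S) m - 22 * g m ≤ volume.real (cell m ∩ f ⁻¹' S) := by
  obtain ⟨hok, hrr⟩ := ok hm
  have h2 := up_bound hS.compl hok
  have h5 := qq_le_g (m := m) (by omega)
  have e1 : ∀ k, bb Sᶜ k = 1 - bb S k := by
    intro k
    have h1 := measureReal_inter_add_sdiff (μ := volume) (s := cell k) (t := S) hS (fin_of_sub (cell_sub k))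
    rw [cell_vol] at h1
    have h3 : bb Sᶜ k = volume.real (cell k \ S) := by
      unfold bb
      congr 1
      ext x
      simp only [mem_inter_iff, mem_compl_iff, mem_sdiff]
      tauto
    have h4 : bb S k = volume.real (cell k ∩ S) := by
      unfold bb
      rw [inter_comm]
    linarith
  have e2 : P (bb Sᶜ) m = 1 - P (bb S) m := by
    have : P (bb Sᶜ) m = P (fun k => 1 - bb S k) m := by
      unfold P
      apply Finset.sum_congr rfl
      intro k _
      rw [e1]
    rw [this, P_sub (fun _ => 1) (bb S) m, P_const]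
  have e3 := measureReal_inter_add_sdiff (μ := volume) (s := cell m) (t := f ⁻¹' S) (pre_meas hS)
    (fin_of_sub (cell_sub m))
  rw [cell_vol] at e3
  have e4 : volume.real (cell m ∩ f ⁻¹' Sᶜ) = volume.real (cell m \ f ⁻¹' S) := by
    congr 1
  linarith

theorem P_mono' {u v : ℕ → ℝ} {m : ℕ} (h : ∀ k, m / 2 ≤ k → (k : ℝ) < (3 * m + 4) / 2 → u k ≤ v k) :
    P u m ≤ P v m := by
  unfold P
  apply Finset.sum_le_sum
  intro k _
  by_cases h0 : w m k = 0
  · rw [h0]; simp
  · apply mul_le_mul_of_nonneg_left _ (w_nonneg _ _)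
    apply h k (w_pos_range h0)
    by_contra hcon
    rw [not_lt] at hcon
    apply h0
    unfold w
    have : cell m ∩ f ⁻¹' cell k = ∅ := by
      ext x
      simp only [mem_inter_iff, mem_preimage, mem_empty_iff_false, iff_false, not_and]
      intro h1 h2
      have h3 : (k : ℝ) ≤ f x := h2.1
      have h4 := f_ub (x := x) (le_trans (by positivity) h1.1)
      linarith [h1.2]
    rw [this]
    simp

theorem int_cell_yy (m : ℕ) (K a b : ℝ) : ∫ x in cell m, (K * (1 + a * cos (π * x) + b * cos (π * x) ^ 2)) =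
    K * (1 + b / 2) := int_cos m K a b

/-- mean of the linear function -/
theorem P_lin_ub (m : ℕ) : P (fun k => (k : ℝ) + 1) m ≤ (m : ℝ) + 4 := by
  have h1 := P_le_int (m := m) (u := fun k => (k : ℝ) + 1)
    (G := fun x => ((m : ℝ) + 4) * (1 + (-1 / 2) * cos (π * x) + 0 * cos (π * x) ^ 2)) (by fun_prop) (by
      intro x hx
      have h2 := floor_ub hx
      unfold yy at h2
      refine h2.trans (le_of_eq ?_)
      ring)
  rw [int_cos] at h1
  simpa using h1

theorem P_lin_lb (m : ℕ) : (m : ℝ) - 2 ≤ P (fun k => (k : ℝ)) m := by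
  have h1 := int_le_P (m := m) (u := fun k => (k : ℝ))
    (G := fun x => ((m : ℝ) - 2) * (1 + (-1 / 2) * cos (π * x) + 0 * cos (π * x) ^ 2)) (by fun_prop) (by
      intro x hx
      have h2 := floor_lb hx
      unfold yy at h2
      refine (le_of_eq ?_).trans h2
      ring)
  rw [int_cos] at h1
  simpa using h1

theorem sqrt_big {m : ℕ} (hm : 400 ≤ m) : (20 : ℝ) ≤ √(m : ℝ) := by
  rw [Real.le_sqrt' (by norm_num)]
  have : (400 : ℝ) ≤ m := by exact_mod_cast hm
  linarith

/-- upper bound -/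
theorem ex_up {L : ℕ} (hL : 13824 ≤ L) {B : ℝ} (hB : 0 < B) (n : ℕ) : ∀ m, L / 2 ≤ m →
    bb (Ex L B n) m ≤ ((m : ℝ) + 1 + 20 * √(m : ℝ)) / B + 2200 * (g (L / 2) - g m) := by
  have hl1 : 1 ≤ L / 2 := by omega
  have triv : ∀ m : ℕ, L / 2 ≤ m → B ≤ (m : ℝ) + 1 → ∀ A : Set ℝ,
      bb A m ≤ ((m : ℝ) + 1 + 20 * √(m : ℝ)) / B + 2200 * (g (L / 2) - g m) := by
    intro m hm hBm A
    have h1 := bb_le_one A m
    have h3 := g_anti hl1 hm
    have h4 : 1 ≤ ((m : ℝ) + 1 + 20 * √(m : ℝ)) / B := by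
      rw [one_le_div hB]
      have := Real.sqrt_nonneg (m : ℝ)
      linarith
    linarith
  have hnn : ∀ m : ℕ, 0 ≤ ((m : ℝ) + 1 + 20 * √(m : ℝ)) / B := fun m => by positivity
  induction n with
  | zero =>
    intro m hm
    rcases le_or_gt B ((m : ℝ) + 1) with h | h
    · exact triv m hm h _
    · have h0 : bb (Ex L B 0) m = 0 := by
        apply bb_zero
        rintro x ⟨k, hk, h1, h2⟩ hx
        obtain rfl : k = 0 := by omega
        simp at h2
        linarith [hx.2]
      have h3 := g_anti hl1 hm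
      rw [h0]
      exact add_nonneg (hnn m) (by linarith)
  | succ n ih =>
    intro m hm
    rcases le_or_gt B ((m : ℝ) + 1) with h | h
    · exact triv m hm h _
    · have h3 := g_anti hl1 hm
      rcases Nat.lt_or_ge m L with hmL | hmL
      · have h0 : bb (Ex L B (n + 1)) m = 0 := by
          apply bb_zero
          intro x hx hxc
          have h4 := (ex_step hx (by linarith [hxc.2])).1
          have h5 : ((m + 1 : ℕ) : ℝ) ≤ L := by exact_mod_cast hmL
          push_cast at h5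
          linarith [hxc.2]
        rw [h0]
        exact add_nonneg (hnn m) (by linarith)
      · have h2 := bb_le_pre (S := Ex L B n) (A := Ex L B (n + 1)) (m := m)
          (ex_meas _ _ _) (by omega) (fun x hx hxc => (ex_step hx (by linarith [hxc.2])).2)
        have h6 : P (bb (Ex L B n)) m ≤
            P (fun k => (1 / B) * ((k : ℝ) + 1 + 20 * √(k : ℝ)) + 2200 * (g (L / 2) - g k)) m :=
          P_mono fun k hk => (ih k (by omega)).trans (le_of_eq (by ring))
        have e1 := P_add (fun k : ℕ => (1 / B) * ((k : ℝ) + 1 + 20 * √(k : ℝ)))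
          (fun k => 2200 * (g (L / 2) - g k)) m
        have e2 := P_smul (1 / B) (fun k : ℕ => (k : ℝ) + 1 + 20 * √(k : ℝ)) m
        have e5 := P_add (fun k : ℕ => (k : ℝ) + 1) (fun k : ℕ => 20 * √(k : ℝ)) m
        have e6 := P_smul 20 (fun k : ℕ => √(k : ℝ)) m
        have e3 := P_smul 2200 (fun k : ℕ => g (L / 2) - g k) m
        have e4 := P_sub (fun _ => g (L / 2)) g m
        rw [P_const] at e4
        rw [e1, e2, e5, e6, e3, e4] at h6
        have h7 := lyap_a (m := m) (by omega)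
        have h8 := lyap_c (m := m) (by omega)
        have h9 := P_lin_ub m
        have h10 := sqrt_big (m := m) (by omega)
        have h11 : (1 / B) * (P (fun k => (k : ℝ) + 1) m + 20 * P (fun k => √(k : ℝ)) m) ≤
            (1 / B) * ((m : ℝ) + 1 + 20 * √(m : ℝ)) := by
          apply mul_le_mul_of_nonneg_left _ (by positivity)
          linarith
        have h12 : ((m : ℝ) + 1 + 20 * √(m : ℝ)) / B = (1 / B) * ((m : ℝ) + 1 + 20 * √(m : ℝ)) := by ring
        rw [h12]
        linarith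

/-- lower bound -/
theorem ex_low {L : ℕ} (hL : 13824 ≤ L) {B : ℝ} (hB : 1 ≤ B) (n : ℕ) : ∀ m : ℕ, L / 2 ≤ m →
    (m : ℝ) ≤ (3 / 2) * B + 2 →
    ((m : ℝ) - 20 * √(m : ℝ) - L) / ((3 / 2) * B + 2) - 0.99 ^ n * √(m : ℝ) - 2200 * (g (L / 2) - g m) ≤
      bb (Ex L B n) m := by
  have hl1 : 1 ≤ L / 2 := by omega
  set M : ℝ := (3 / 2) * B + 2 with hM
  have hM0 : 0 < M := by rw [hM]; linarith
  -- cells below `L`
  have low : ∀ (n m : ℕ), L / 2 ≤ m → m < L → ∀ A : Set ℝ,
      ((m : ℝ) - 20 * √(m : ℝ) - L) / M - 0.99 ^ n * √(m : ℝ) - 2200 * (g (L / 2) - g m) ≤ bb A m := by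
    intro n m hm hmL A
    have h1 := bb_nonneg A m
    have h3 := g_anti hl1 hm
    have h4 : ((m : ℝ) - 20 * √(m : ℝ) - L) / M ≤ 0 := by
      apply div_nonpos_of_nonpos_of_nonneg _ hM0.le
      have h5 : (m : ℝ) < L := by exact_mod_cast hmL
      have := Real.sqrt_nonneg (m : ℝ)
      linarith
    have h6 : 0 ≤ (0.99 : ℝ) ^ n * √(m : ℝ) := by positivity
    linarith
  -- cells above `B`
  have high : ∀ (n m : ℕ), L / 2 ≤ m → (m : ℝ) ≤ M → B ≤ m →
      ((m : ℝ) - 20 * √(m : ℝ) - L) / M - 0.99 ^ n * √(m : ℝ) - 2200 * (g (L / 2) - g m) ≤ bb (Ex L B n) m := by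
    intro n m hm hmM hBm
    have h1 : bb (Ex L B n) m = 1 := by
      have : Ex L B n ∩ cell m = cell m := by
        rw [inter_eq_right]
        intro x hx
        refine ⟨0, Nat.zero_le _, fun i hi => absurd hi (Nat.not_lt_zero _), ?_⟩
        simp only [Function.iterate_zero, id_eq]
        exact hBm.trans hx.1
      unfold bb
      rw [this, cell_vol]
    have h3 := g_anti hl1 hm
    have h4 : ((m : ℝ) - 20 * √(m : ℝ) - L) / M ≤ 1 := by
      rw [div_le_one hM0]
      have h5 : (0 : ℝ) ≤ L := by positivity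
      have := Real.sqrt_nonneg (m : ℝ)
      linarith
    have h6 : 0 ≤ (0.99 : ℝ) ^ n * √(m : ℝ) := by positivity
    rw [h1]
    linarith
  induction n with
  | zero =>
    intro m hm hmM
    rcases Nat.lt_or_ge m L with hmL | hmL
    · exact low 0 m hm hmL _
    rcases le_or_gt B (m : ℝ) with h | h
    · exact high 0 m hm hmM h
    · have h1 := bb_nonneg (Ex L B 0) m
      have h3 := g_anti hl1 hm
      have h4 : ((m : ℝ) - 20 * √(m : ℝ) - L) / M ≤ 1 := by
        rw [div_le_one hM0]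
        have h5 : (0 : ℝ) ≤ L := by positivity
        have := Real.sqrt_nonneg (m : ℝ)
        linarith
      have h6 := sqrt_big (m := m) (by omega)
      rw [pow_zero, one_mul]
      linarith
  | succ n ih =>
    intro m hm hmM
    rcases Nat.lt_or_ge m L with hmL | hmL
    · exact low (n + 1) m hm hmL _
    rcases le_or_gt B (m : ℝ) with h | h
    · exact high (n + 1) m hm hmM h
    · have h3 := g_anti hl1 hm
      have h2 := pre_compl (S := Ex L B n) (m := m) (ex_meas _ _ _) (by omega)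
      have h4 : volume.real (cell m ∩ f ⁻¹' Ex L B n) ≤ bb (Ex L B (n + 1)) m := by
        unfold bb
        apply measureReal_mono _ (inter_fin' _ _)
        rintro x ⟨hx1, hx2⟩
        refine ⟨ex_back ?_ hx2, hx1⟩
        have h5 : (L : ℝ) ≤ m := by exact_mod_cast hmL
        exact h5.trans hx1.1
      have h6 : P (fun k => (1 / M) * ((k : ℝ) - (20 * √(k : ℝ) + L)) - (0.99 ^ n * √(k : ℝ) +
          2200 * (g (L / 2) - g k))) m ≤ P (bb (Ex L B n)) m := by
        apply P_mono'
        intro k hk hk2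
        have := ih k (by omega) (by rw [hM]; linarith)
        refine le_trans (le_of_eq ?_) this
        ring
      have e1 := P_sub (fun k : ℕ => (1 / M) * ((k : ℝ) - (20 * √(k : ℝ) + L)))
          (fun k => 0.99 ^ n * √(k : ℝ) + 2200 * (g (L / 2) - g k)) m
      have e2 := P_smul (1 / M) (fun k : ℕ => (k : ℝ) - (20 * √(k : ℝ) + L)) m
      have e5 := P_sub (fun k : ℕ => (k : ℝ)) (fun k : ℕ => 20 * √(k : ℝ) + L) m
      have e7 := P_add (fun k : ℕ => 20 * √(k : ℝ)) (fun _ => (L : ℝ)) m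
      have e6 := P_smul 20 (fun k : ℕ => √(k : ℝ)) m
      have e8 := P_const (L : ℝ) m
      have e9 := P_add (fun k : ℕ => (0.99 : ℝ) ^ n * √(k : ℝ)) (fun k => 2200 * (g (L / 2) - g k)) m
      have e10 := P_smul ((0.99 : ℝ) ^ n) (fun k : ℕ => √(k : ℝ)) m
      have e3 := P_smul 2200 (fun k : ℕ => g (L / 2) - g k) m
      have e4 := P_sub (fun _ => g (L / 2)) g m
      rw [P_const] at e4
      rw [e1, e2, e5, e7, e6, e8, e9, e10, e3, e4] at h6
      have h7 := lyap_a (m := m) (by omega)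
      have h8 := lyap_c (m := m) (by omega)
      have h9 := P_lin_lb m
      have h10 := sqrt_big (m := m) (by omega)
      have h11 : (1 / M) * ((m : ℝ) - (20 * √(m : ℝ) + L)) ≤
          (1 / M) * (P (fun k => (k : ℝ)) m - (20 * P (fun k => √(k : ℝ)) m + L)) := by
        apply mul_le_mul_of_nonneg_left _ (by positivity)
        linarith
      have h12 : ((m : ℝ) - 20 * √(m : ℝ) - L) / M = (1 / M) * ((m : ℝ) - (20 * √(m : ℝ) + L)) := by ring
      have h13 : (0.99 : ℝ) ^ n * P (fun k : ℕ => √(k : ℝ)) m ≤ 0.99 ^ n * (0.99 * √(m : ℝ)) :=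
        mul_le_mul_of_nonneg_left h8 (by positivity)
      rw [h12, pow_succ]
      linarith

end Pool.Agent.K9h56.CR
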