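import Pool.Agent.K9h56.CR.Exc

/-!
The probability that the orbit exceeds a level before it falls below `L`, final form.
-/

set_option autoImplicit false
set_option linter.all false

namespace Pool.Agent.K9h56.CR

open Real MeasureTheory Set Filter
open Pool.Agent.H934R2.Ch (f df hasDerivAt_f continuous_f continuous_df)
open Pool.Agent.W40.Ch

/-- the orbit exceeds `B` before it falls below `L` -/
def ExU (L : ℕ) (B : ℝ) : Set ℝ :=
  {x | ∃ k : ℕ, (∀ i : ℕ, i < k → (L : ℝ) ≤ f^[i] x) ∧ B ≤ f^[k] x}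

theorem exU_eq (L : ℕ) (B : ℝ) : ExU L B = ⋃ n, Ex L B n := by
  ext x
  simp only [ExU, Ex, mem_setOf_eq, mem_iUnion]
  constructor
  · rintro ⟨k, h1, h2⟩
    exact ⟨k, k, le_rfl, h1, h2⟩
  · rintro ⟨n, k, hk, h1, h2⟩
    exact ⟨k, h1, h2⟩

theorem exU_tendsto (L : ℕ) (B : ℝ) (m : ℕ) :
    Tendsto (fun n => bb (Ex L B n) m) atTop (nhds (volume.real (ExU L B ∩ cell m))) := by
  have h1 : ExU L B ∩ cell m = ⋃ n, (Ex L B n ∩ cell m) := by
    rw [exU_eq, iUnion_inter]
  have h2 : Monotone fun n => Ex L B n ∩ cell m := fun a b hab =>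
    inter_subset_inter_left _ (ex_mono hab)
  have h3 := tendsto_measure_iUnion_atTop (μ := volume) h2
  rw [← h1] at h3
  have h4 := (ENNReal.tendsto_toReal (inter_fin' (ExU L B) m)).comp h3
  exact h4

theorem exc_final : ∃ C : ℝ, ∀ m L : ℕ, 1 ≤ L → L ≤ m → ∀ t : ℝ, 1 ≤ t →
    volume.real (ExU L (t * m) ∩ cell m) ≤ 1 / t + C * (L : ℝ) ^ (-(1 / 4) : ℝ) ∧
    2 / (3 * t) - C * ((L : ℝ) ^ (-(1 / 4) : ℝ) + L / m) ≤ volume.real (ExU L (t * m) ∩ cell m) := by
  refine ⟨3000, ?_⟩
  intro m L hL hLm t ht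
  have hL' : (1 : ℝ) ≤ L := by exact_mod_cast hL
  have hLm' : (L : ℝ) ≤ m := by exact_mod_cast hLm
  have hm0 : (0 : ℝ) < m := by linarith
  have hp : 0 ≤ (L : ℝ) ^ (-(1 / 4) : ℝ) := by positivity
  have hlm : 0 ≤ (L : ℝ) / m := by positivity
  have ht' : 2 / (3 * t) ≤ 1 := by
    rw [div_le_one (by positivity)]
    linarith
  have ht0 : 0 < 1 / t := by positivity
  rcases Nat.lt_or_ge L 13824 with h | h
  · have h1 : (20736 : ℝ) ^ (-(1 / 4) : ℝ) ≤ (L : ℝ) ^ (-(1 / 4) : ℝ) := by
      apply Real.rpow_le_rpow_of_nonpos (by linarith)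
      · have : (L : ℝ) < 13824 := by exact_mod_cast h
        linarith
      · norm_num
    have h2 : (20736 : ℝ) ^ (-(1 / 4) : ℝ) = 1 / 12 := by
      have : (20736 : ℝ) = 12 ^ (4 : ℝ) := by norm_num
      rw [this, ← Real.rpow_mul (by norm_num)]
      norm_num
    rw [h2] at h1
    have h3 : volume.real (ExU L (t * m) ∩ cell m) ≤ 1 := bb_le_one _ m
    have h4 : 0 ≤ volume.real (ExU L (t * m) ∩ cell m) := measureReal_nonneg
    constructor
    · linarith
    · linarith
  · have hq : (400 : ℝ) ≤ L := by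
      have : (400 : ℕ) ≤ L := by omega
      exact_mod_cast this
    have hg := g_half (L := L) (by omega)
    have hgm := g_nonneg m
    have hB : 1 ≤ t * m := by nlinarith
    -- `1 / √m ≤ L ^ (-1/4)`
    have hsq : 1 / √(m : ℝ) ≤ (L : ℝ) ^ (-(1 / 4) : ℝ) := by
      rw [Real.sqrt_eq_rpow, one_div, ← Real.rpow_neg hm0.le]
      calc (m : ℝ) ^ (-(1 / 2) : ℝ) ≤ (m : ℝ) ^ (-(1 / 4) : ℝ) :=
            Real.rpow_le_rpow_of_exponent_le (by linarith) (by norm_num)
        _ ≤ _ := Real.rpow_le_rpow_of_nonpos (by linarith) hLm' (by norm_num)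
    have hsm : 0 < √(m : ℝ) := Real.sqrt_pos.2 hm0
    have hsmm : √(m : ℝ) * √(m : ℝ) = m := Real.mul_self_sqrt hm0.le
    have hsm1 : 1 ≤ √(m : ℝ) := by
      rw [Real.le_sqrt' one_pos]
      linarith
    have hm1 : 1 / (m : ℝ) ≤ 1 / √(m : ℝ) := by
      apply one_div_le_one_div_of_le hsm
      nlinarith
    have e1 : √(m : ℝ) / m = 1 / √(m : ℝ) := by
      rw [div_eq_div_iff hm0.ne' hsm.ne']
      linarith
    constructor
    · apply le_of_tendsto' (exU_tendsto L (t * m) m)
      intro n
      have h1 := ex_up h (B := t * m) (by linarith) n m (by omega)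
      have h2 : ((m : ℝ) + 1 + 20 * √(m : ℝ)) / (t * m) ≤ 1 / t + 21 * (1 / √(m : ℝ)) := by
        have e2 : ((m : ℝ) + 1 + 20 * √(m : ℝ)) / (t * m) =
            (1 / t) * (1 + 1 / m + 20 * (√(m : ℝ) / m)) := by
          field_simp
        rw [e2, e1]
        have h3 : (1 / t) ≤ 1 := by
          rw [div_le_one (by linarith)]
          exact ht
        have h4 : (1 / t) * (1 / m + 20 * (1 / √(m : ℝ))) ≤ 1 * (21 * (1 / √(m : ℝ))) := by
          apply mul_le_mul h3 _ (by positivity) zero_le_one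
          linarith
        linarith
      linarith
    · have h5 : Tendsto (fun n : ℕ => ((m : ℝ) - 20 * √(m : ℝ) - L) / ((3 / 2) * (t * m) + 2) -
          0.99 ^ n * √(m : ℝ) - 2200 * (g (L / 2) - g m)) atTop
          (nhds (((m : ℝ) - 20 * √(m : ℝ) - L) / ((3 / 2) * (t * m) + 2) -
          0 * √(m : ℝ) - 2200 * (g (L / 2) - g m))) := by
        apply Tendsto.sub_const
        apply Tendsto.const_sub
        apply Tendsto.mul_const
        exact tendsto_pow_atTop_nhds_zero_of_lt_one (by norm_num) (by norm_num)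
      have h6 := le_of_tendsto_of_tendsto' h5 (exU_tendsto L (t * m) m) (fun n =>
        ex_low h hB n m (by omega) (by nlinarith))
      have h7 : 2 / (3 * t) - 30 * (1 / √(m : ℝ)) - L / m ≤
          ((m : ℝ) - 20 * √(m : ℝ) - L) / ((3 / 2) * (t * m) + 2) := by
        rcases le_or_gt ((m : ℝ) - 20 * √(m : ℝ) - L) 0 with hn | hn
        · -- then the left side is negative
          have e3 : 1 ≤ 20 * (1 / √(m : ℝ)) + L / m := by
            have : (m : ℝ) / m ≤ (20 * √(m : ℝ) + L) / m := by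
              apply div_le_div_of_nonneg_right _ hm0.le
              linarith
            rw [div_self hm0.ne', add_div, mul_div_assoc, e1] at this
            exact this
          have e4 : ((m : ℝ) - 20 * √(m : ℝ) - L) / m ≤
              ((m : ℝ) - 20 * √(m : ℝ) - L) / ((3 / 2) * (t * m) + 2) := by
            rw [div_eq_mul_inv, div_eq_mul_inv]
            apply mul_le_mul_of_nonpos_left _ hn
            apply inv_anti₀ hm0
            nlinarith
          have e5 : ((m : ℝ) - 20 * √(m : ℝ) - L) / m = 1 - 20 * (1 / √(m : ℝ)) - L / m := by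
            rw [sub_div, sub_div, mul_div_assoc, e1, div_self hm0.ne']
          have e6 : 0 < 1 / √(m : ℝ) := by positivity
          linarith
        · have e7 : (3 / 2) * (t * m) + 2 ≤ (3 / 2) * (t * m) * (1 + 2 / m) := by
            have : (3 / 2) * (t * m) * (1 + 2 / m) = (3 / 2) * (t * m) + 3 * t := by
              field_simp
            rw [this]
            linarith
          have e8 : ((m : ℝ) - 20 * √(m : ℝ) - L) / ((3 / 2) * (t * m) * (1 + 2 / m)) ≤
              ((m : ℝ) - 20 * √(m : ℝ) - L) / ((3 / 2) * (t * m) + 2) := by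
            apply div_le_div_of_nonneg_left hn.le (by positivity) e7
          refine le_trans ?_ e8
          have e9 : ((m : ℝ) - 20 * √(m : ℝ) - L) / ((3 / 2) * (t * m) * (1 + 2 / m)) =
              (2 / (3 * t)) * ((1 - 20 * (√(m : ℝ) / m) - L / m) / (1 + 2 / m)) := by
            field_simp
          rw [e9, e1]
          have e10 : (1 - 20 * (1 / √(m : ℝ)) - L / m) - 2 * (1 / √(m : ℝ)) ≤
              (1 - 20 * (1 / √(m : ℝ)) - L / m) / (1 + 2 / m) := by
            rw [le_div_iff₀ (by positivity)]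
            have e11 : 2 / (m : ℝ) ≤ 2 * (1 / √(m : ℝ)) := by
              have : 2 / (m : ℝ) = 2 * (1 / m) := by ring
              rw [this]
              linarith
            have e12 : 0 ≤ 2 / (m : ℝ) := by positivity
            have e13 : 1 - 20 * (1 / √(m : ℝ)) - L / m ≤ 1 := by
              have : 0 < 1 / √(m : ℝ) := by positivity
              linarith
            have e14 : 0 ≤ 1 / √(m : ℝ) := by positivity
            nlinarith [mul_nonneg e12 e14, mul_nonneg (sub_nonneg.2 e13) e12]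
          have e15 : (2 / (3 * t)) * ((1 - 20 * (1 / √(m : ℝ)) - L / m) - 2 * (1 / √(m : ℝ))) ≤
              (2 / (3 * t)) * ((1 - 20 * (1 / √(m : ℝ)) - L / m) / (1 + 2 / m)) :=
            mul_le_mul_of_nonneg_left e10 (by positivity)
          have e16 : 0 ≤ 22 * (1 / √(m : ℝ)) + L / m := by positivity
          have e17 : (2 / (3 * t)) * (22 * (1 / √(m : ℝ)) + L / m) ≤ 1 * (22 * (1 / √(m : ℝ)) + L / m) :=
            mul_le_mul_of_nonneg_right ht' e16
          have e18 : 0 ≤ 1 / √(m : ℝ) := by positivity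
          linarith
      have e19 : 0 ≤ 1 / √(m : ℝ) := by positivity
      linarith

end Pool.Agent.K9h56.CR
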