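import Pool.Agent.K9h56.CR.Walk

/-!
The heights of the orbit follow the random walk, until the orbit falls below `L`.
-/

set_option autoImplicit false
set_option linter.all false

namespace Pool.Agent.K9h56.CR

open Real MeasureTheory Set
open Pool.Agent.H934R2.Ch (f df hasDerivAt_f continuous_f continuous_df)
open Pool.Agent.W40.Ch

/-- the heights of the orbit, up to the time `N` or the first term below `L` -/
noncomputable def track (L : ℕ) : ℕ → ℝ → List ℕ
  | 0, x => [⌊x⌋₊]
  | N + 1, x => open Classical in if x < (L : ℝ) then [⌊x⌋₊] else ⌊x⌋₊ :: track L N (f x)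

theorem track_succ_lt {L N : ℕ} {x : ℝ} (h : x < (L : ℝ)) : track L (N + 1) x = [⌊x⌋₊] := by
  rw [track, if_pos h]

theorem track_succ_ge {L N : ℕ} {x : ℝ} (h : (L : ℝ) ≤ x) :
    track L (N + 1) x = ⌊x⌋₊ :: track L N (f x) := by
  rw [track, if_neg (not_lt.2 h)]

theorem floor_meas (A : Set ℕ) : MeasurableSet {x : ℝ | ⌊x⌋₊ ∈ A} :=
  Nat.measurable_floor (Set.to_countable A).measurableSet

theorem track_meas (L : ℕ) : ∀ (N : ℕ) (A : Set (List ℕ)), MeasurableSet {x : ℝ | track L N x ∈ A} := by
  intro N
  induction N with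
  | zero =>
    intro A
    exact floor_meas {n | [n] ∈ A}
  | succ N ih =>
    intro A
    have e : {x : ℝ | track L (N + 1) x ∈ A} = (Iio (L : ℝ) ∩ {x : ℝ | ⌊x⌋₊ ∈ {n | [n] ∈ A}}) ∪
        ⋃ n : ℕ, ((Ici (L : ℝ) ∩ {x : ℝ | ⌊x⌋₊ ∈ ({n} : Set ℕ)}) ∩ f ⁻¹' {y | track L N y ∈ {h | n :: h ∈ A}}) := by
      ext x
      simp only [mem_setOf_eq, mem_union, mem_inter_iff, mem_Iio, mem_iUnion, mem_Ici, mem_singleton_iff,
        mem_preimage]
      rcases lt_or_ge x (L : ℝ) with h | h
      · rw [track_succ_lt h]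
        constructor
        · intro h1
          exact Or.inl ⟨h, h1⟩
        · rintro (⟨_, h1⟩ | ⟨n, ⟨h1, _⟩, _⟩)
          · exact h1
          · exact absurd h (not_lt.2 h1)
      · rw [track_succ_ge h]
        constructor
        · intro h1
          exact Or.inr ⟨_, ⟨h, rfl⟩, h1⟩
        · rintro (⟨h1, _⟩ | ⟨n, ⟨_, h2⟩, h3⟩)
          · exact absurd h1 (not_lt.2 h)
          · rw [h2]
            exact h3
    rw [e]
    refine (measurableSet_Iio.inter (floor_meas _)).union (MeasurableSet.iUnion fun n => ?_)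
    exact (measurableSet_Ici.inter (floor_meas _)).inter (continuous_f.measurable (ih _))

theorem floor_cell {m : ℕ} {x : ℝ} (hx : x ∈ cell m) : ⌊x⌋₊ = m :=
  (Nat.floor_eq_iff (le_trans (by positivity) hx.1)).2 ⟨hx.1, hx.2⟩

/-- the error -/
noncomputable def WW (L : ℕ) (κ : ℝ) (m : ℕ) (η : ℝ) : ℝ :=
  2 * Real.exp (-(κ * η)) * (1 + g (L / 2) - g m) + 2200 * (g (L / 2) - g m)

theorem g_le_one' (m : ℕ) : g m ≤ 1 := by
  rcases Nat.eq_zero_or_pos m with h | h
  · subst h
    unfold g
    rw [Nat.cast_zero, Real.zero_rpow (by norm_num)]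
    exact zero_le_one
  · unfold g
    apply Real.rpow_le_one_of_one_le_of_nonpos
    · exact_mod_cast h
    · norm_num

theorem ww_nonneg {L : ℕ} (hl1 : 1 ≤ L / 2) (κ : ℝ) {m : ℕ} (hm : L / 2 ≤ m) (η : ℝ) : 0 ≤ WW L κ m η := by
  have h3 := g_anti hl1 hm
  unfold WW
  have h4 : 0 ≤ 1 + g (L / 2) - g m := by linarith
  have h5 := mul_nonneg (mul_nonneg zero_le_two (Real.exp_pos (-(κ * η))).le) h4
  linarith

/-- approximation of the height after one step -/
theorem log_floor {m : ℕ} (hm : 13824 ≤ m) {x : ℝ} (hx : x ∈ cell m) :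
    |Real.log ((⌊f x⌋₊ : ℕ) : ℝ) - (Real.log m + Real.log (yy x))| ≤ 4 / m := by
  have h1 := floor_ub hx
  have h2 := floor_lb hx
  have hy := yy_pos x
  have hy2 := yy_lb x
  have hm' : (13824 : ℝ) ≤ m := by exact_mod_cast hm
  have hm0 : (0 : ℝ) < m := by linarith
  have hf0 : (0 : ℝ) < ((⌊f x⌋₊ : ℕ) : ℝ) := by nlinarith
  rw [← Real.log_mul hm0.ne' hy.ne', abs_le]
  constructor
  · -- lower bound
    have h3 : ((m : ℝ) - 2) * yy x = (m * yy x) * (1 - 2 / m) := by field_simp
    have h4 : 0 < 1 - 2 / (m : ℝ) := by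
      rw [sub_pos, div_lt_one hm0]
      linarith
    have h5 := Real.log_le_log (by rw [h3]; positivity) h2
    rw [h3, Real.log_mul (by positivity) h4.ne'] at h5
    have h6 := Real.one_sub_inv_le_log_of_pos h4
    have h7 : (1 - 2 / (m : ℝ))⁻¹ ≤ 1 + 4 / m := by
      rw [inv_le_comm₀ h4 (by positivity), inv_eq_one_div, div_le_iff₀ (by positivity)]
      have h8 : 2 / (m : ℝ) ≤ 1 / 4 := by
        rw [div_le_iff₀ hm0]
        linarith
      have h9 : 0 < 2 / (m : ℝ) := by positivity
      have h10 : 4 / (m : ℝ) = 2 * (2 / m) := by ring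
      rw [h10]
      nlinarith
    linarith
  · have h3 : ((⌊f x⌋₊ : ℕ) : ℝ) ≤ (m * yy x) * (1 + 4 / m) := by
      have : (m * yy x) * (1 + 4 / m) = (m + 4) * yy x := by field_simp
      rw [this]
      linarith
    have h5 := Real.log_le_log hf0 h3
    rw [Real.log_mul (by positivity) (by positivity)] at h5
    have h6 := Real.log_le_sub_one_of_pos (show (0 : ℝ) < 1 + 4 / m by positivity)
    linarith

/-- one step of the error -/
theorem ww_step {L : ℕ} (hL : 13824 ≤ L) {κ : ℝ} (hκ : 0 ≤ κ) {m : ℕ} (hm : L ≤ m)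
    (hκm : κ ≤ (m : ℝ) ^ (3 / 4 : ℝ) / 1600) (η : ℝ) :
    P (fun k => WW L κ k (η - 4 / m)) m + 22 * g m ≤ WW L κ m η := by
  have hm' : (13824 : ℝ) ≤ m := by exact_mod_cast (hL.trans hm)
  have hm0 : (0 : ℝ) < m := by linarith
  have hl1 : 1 ≤ L / 2 := by omega
  have hg := lyap_a (m := m) (by omega)
  have h3 := g_anti hl1 (by omega : L / 2 ≤ m)
  have e1 : P (fun k => WW L κ k (η - 4 / m)) m =
      2 * Real.exp (-(κ * (η - 4 / m))) * (1 + g (L / 2) - P g m) + 2200 * (g (L / 2) - P g m) := by
    have a1 := P_add (fun k => 2 * Real.exp (-(κ * (η - 4 / m))) * ((1 + g (L / 2)) - g k))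
      (fun k => 2200 * (g (L / 2) - g k)) m
    have a2 := P_smul (2 * Real.exp (-(κ * (η - 4 / m)))) (fun k => (1 + g (L / 2)) - g k) m
    have a3 := P_smul 2200 (fun k => g (L / 2) - g k) m
    have a4 := P_sub (fun _ => 1 + g (L / 2)) g m
    have a5 := P_sub (fun _ => g (L / 2)) g m
    rw [P_const] at a4 a5
    unfold WW
    rw [a1, a2, a3, a4, a5]
  rw [e1]
  unfold WW
  have h4 : Real.exp (-(κ * (η - 4 / m))) = Real.exp (-(κ * η)) * Real.exp (4 * κ / m) := by
    rw [← Real.exp_add]
    congr 1
    ring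
  -- `a = 4 κ / m`
  have hga : 4 * κ / m ≤ g m / 400 := by
    have h5 : g m = (m : ℝ) ^ (3 / 4 : ℝ) / m := by
      unfold g
      rw [eq_div_iff hm0.ne']
      nth_rewrite 2 [← Real.rpow_one (m : ℝ)]
      rw [← Real.rpow_add hm0]
      norm_num
    rw [h5, div_div, div_le_div_iff₀ hm0 (by positivity)]
    have : κ * m ≤ (m : ℝ) ^ (3 / 4 : ℝ) / 1600 * m := mul_le_mul_of_nonneg_right hκm hm0.le
    nlinarith
  have ha0 : 0 ≤ 4 * κ / m := by positivity
  have hg1 := g_le_one' m
  have hg2 := g_le_one' (L / 2)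
  have ha1 : 4 * κ / m ≤ 1 := by linarith
  have he : Real.exp (4 * κ / m) ≤ 1 + 2 * (4 * κ / m) := by
    have := Real.abs_exp_sub_one_sub_id_le (x := 4 * κ / m) (by rw [abs_of_nonneg ha0]; exact ha1)
    have h6 := (abs_le.1 this).2
    nlinarith
  have hgn := g_nonneg m
  have hPg : (0 : ℝ) ≤ 1 + g (L / 2) - P g m := by
    have h7 : P g m ≤ P (fun _ => g (L / 2)) m := P_mono fun k hk => g_anti hl1 (by omega)
    rw [P_const] at h7
    linarith
  have h8 : Real.exp (4 * κ / m) * (1 + g (L / 2) - P g m) ≤ 1 + g (L / 2) - g m := by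
    have h9 : Real.exp (4 * κ / m) * (1 + g (L / 2) - P g m) ≤
        (1 + 2 * (4 * κ / m)) * (1 + g (L / 2) - P g m) := mul_le_mul_of_nonneg_right he hPg
    have h10 : (4 * κ / m) * (1 + g (L / 2) - P g m) ≤ g m / 400 * 2 := by
      apply mul_le_mul hga _ hPg (by positivity)
      have : 0 ≤ P g m := le_trans (by positivity) hg
      linarith
    nlinarith
  rw [h4]
  have h11 : 2 * (Real.exp (-(κ * η)) * Real.exp (4 * κ / m)) * (1 + g (L / 2) - P g m) ≤
      2 * Real.exp (-(κ * η)) * (1 + g (L / 2) - g m) := by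
    have := mul_le_mul_of_nonneg_left h8 (show 0 ≤ 2 * Real.exp (-(κ * η)) by positivity)
    calc 2 * (Real.exp (-(κ * η)) * Real.exp (4 * κ / m)) * (1 + g (L / 2) - P g m) =
          2 * Real.exp (-(κ * η)) * (Real.exp (4 * κ / m) * (1 + g (L / 2) - P g m)) := by ring
      _ ≤ _ := this
  linarith

theorem main_ind {L : ℕ} (hL : 13824 ≤ L) {κ : ℝ} (hκ : 0 ≤ κ) (hκL : κ ≤ (L : ℝ) ^ (3 / 4 : ℝ) / 1600) :
    ∀ (N : ℕ) (A : Set (List ℕ)) (η : ℝ) (m : ℕ), 0 ≤ η → L / 2 ≤ m →
      bb {x : ℝ | track L N x ∈ A} m ≤ GG η N A (Real.log m) + WW L κ m η := by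
  have hl1 : 1 ≤ L / 2 := by omega
  -- paths of length one
  have single : ∀ (N : ℕ) (A : Set (List ℕ)) (η : ℝ) (m : ℕ), 0 ≤ η → L / 2 ≤ m →
      (∀ x ∈ cell m, track L N x = [m]) →
      bb {x : ℝ | track L N x ∈ A} m ≤ GG η N A (Real.log m) + WW L κ m η := by
    intro N A η m hη hm htr
    have hw := ww_nonneg hl1 κ hm η
    by_cases hA : [m] ∈ A
    · rw [gg_one hη N hA]
      have := bb_le_one {x : ℝ | track L N x ∈ A} m
      linarith
    · have h0 : bb {x : ℝ | track L N x ∈ A} m = 0 := by
        apply bb_zero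
        intro x hx hxc
        apply hA
        rw [← htr x hxc]
        exact hx
      rw [h0]
      exact add_nonneg (gg_nonneg _ _ _ _) hw
  intro N
  induction N with
  | zero =>
    intro A η m hη hm
    refine single 0 A η m hη hm fun x hx => ?_
    rw [track, floor_cell hx]
  | succ N ih =>
    intro A η m hη hm
    rcases Nat.lt_or_ge m L with hmL | hmL
    · refine single (N + 1) A η m hη hm fun x hx => ?_
      have h5 : ((m + 1 : ℕ) : ℝ) ≤ L := by exact_mod_cast hmL
      push_cast at h5
      rw [track_succ_lt (by linarith [hx.2]), floor_cell hx]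
    · have hm' : (13824 : ℝ) ≤ m := by exact_mod_cast (hL.trans hmL)
      have hm0 : (0 : ℝ) < m := by linarith
      have hmL' : (L : ℝ) ≤ m := by exact_mod_cast hmL
      have hκm : κ ≤ (m : ℝ) ^ (3 / 4 : ℝ) / 1600 := by
        refine hκL.trans ?_
        apply div_le_div_of_nonneg_right _ (by norm_num)
        exact Real.rpow_le_rpow (by positivity) hmL' (by norm_num)
      rcases lt_or_ge η (4 / m) with hsm | hbig
      · -- small allowance: the error is at least one
        have h1 := bb_le_one {x : ℝ | track L (N + 1) x ∈ A} m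
        have h2 := gg_nonneg η (N + 1) A (Real.log m)
        have h3 := g_anti hl1 hm
        have h4 : 1 ≤ WW L κ m η := by
          unfold WW
          have h5 : (1 : ℝ) / 2 ≤ Real.exp (-(κ * η)) := by
            have h6 : κ * η ≤ 1 / 2 := by
              have h7 : κ * η ≤ (m : ℝ) ^ (3 / 4 : ℝ) / 1600 * (4 / m) :=
                mul_le_mul hκm hsm.le hη (by positivity)
              have h8 : (m : ℝ) ^ (3 / 4 : ℝ) ≤ m := by
                nth_rewrite 2 [← Real.rpow_one (m : ℝ)]
                exact Real.rpow_le_rpow_of_exponent_le (by linarith) (by norm_num)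
              have h9 : (m : ℝ) ^ (3 / 4 : ℝ) / 1600 * (4 / m) ≤ m / 1600 * (4 / m) :=
                mul_le_mul_of_nonneg_right (by linarith) (by positivity)
              have h10 : (m : ℝ) / 1600 * (4 / m) = 1 / 400 := by field_simp; norm_num
              linarith
            have := Real.add_one_le_exp (-(κ * η))
            linarith
          nlinarith
        linarith
      · set A' : Set (List ℕ) := {h | m :: h ∈ A} with hA'
        have h2 := bb_le_pre (S := {y : ℝ | track L N y ∈ A'}) (A := {x : ℝ | track L (N + 1) x ∈ A}) (m := m)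
          (track_meas L N A') (by omega) (fun x hx hxc => by
            have hx' : track L (N + 1) x ∈ A := hx
            rw [track_succ_ge (hmL'.trans hxc.1), floor_cell hxc] at hx'
            exact hx')
        have h6 : P (bb {y : ℝ | track L N y ∈ A'}) m ≤
            P (fun k => GG (η - 4 / m) N A' (Real.log k) + WW L κ k (η - 4 / m)) m :=
          P_mono fun k hk => ih A' (η - 4 / m) k (by linarith) (by omega)
        rw [P_add (fun k => GG (η - 4 / m) N A' (Real.log k)) (fun k => WW L κ k (η - 4 / m)) m] at h6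
        have h7 := ww_step hL hκ hmL hκm η
        have h8 : P (fun k => GG (η - 4 / m) N A' (Real.log k)) m ≤ GG η (N + 1) A (Real.log m) := by
          rw [P_eq_int]
          have hmeas : Measurable fun x => GG η N A' (Real.log m + Real.log (yy x)) :=
            (gg_meas η N A').comp (measurable_const.add continuous_log_yy.measurable)
          have h9 : ∫ x in cell m, GG (η - 4 / m) N A' (Real.log ((⌊f x⌋₊ : ℕ) : ℝ)) ≤
              ∫ x in cell m, GG η N A' (Real.log m + Real.log (yy x)) := by
            apply setIntegral_mono_on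
            · apply Measure.integrableOn_of_bounded (M := 1) (fin_of_sub (cell_sub m))
              · apply Measurable.aestronglyMeasurable
                apply (gg_meas _ N A').comp
                apply Real.measurable_log.comp
                exact measurable_from_top.comp (Nat.measurable_floor.comp continuous_f.measurable)
              · refine Filter.Eventually.of_forall fun x => ?_
                rw [Real.norm_eq_abs, abs_of_nonneg (gg_nonneg _ _ _ _)]
                exact gg_le_one _ _ _ _
            · apply Measure.integrableOn_of_bounded (M := 1) (fin_of_sub (cell_sub m))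
              · exact hmeas.aestronglyMeasurable
              · refine Filter.Eventually.of_forall fun x => ?_
                rw [Real.norm_eq_abs, abs_of_nonneg (gg_nonneg _ _ _ _)]
                exact gg_le_one _ _ _ _
            · exact cell_meas m
            · intro x hx
              have h10 := gg_shift (η := η - 4 / m) N A' (log_floor (by omega) hx)
              rwa [sub_add_cancel] at h10
          refine h9.trans ?_
          rw [int_yy m (fun y => GG η N A' (Real.log m + Real.log y))]
          exact gg_step N A (Real.log m) (by simpa using hη)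
        linarith

end Pool.Agent.K9h56.CR
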