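import Pool.Agent.K9h56.CR.Inv

/-!
The comparison of the orbit with the random walk, final form.
-/

set_option autoImplicit false
set_option linter.all false

namespace Pool.Agent.K9h56.CR

open Real MeasureTheory Set
open Pool.Agent.H934R2.Ch (f df hasDerivAt_f continuous_f continuous_df)
open Pool.Agent.W40.Ch

theorem small_L {L : ℕ} (hL : 1 ≤ L) (h : L < 13824) : 1 ≤ 12 * (L : ℝ) ^ (-(1 / 4) : ℝ) := by
  have hL' : (1 : ℝ) ≤ L := by exact_mod_cast hL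
  have h1 : (20736 : ℝ) ^ (-(1 / 4) : ℝ) ≤ (L : ℝ) ^ (-(1 / 4) : ℝ) := by
    apply Real.rpow_le_rpow_of_nonpos (by linarith)
    · have : (L : ℝ) < 13824 := by exact_mod_cast h
      linarith
    · norm_num
  have h2 : (20736 : ℝ) ^ (-(1 / 4) : ℝ) = 1 / 12 := by
    have : (20736 : ℝ) = 12 ^ (4 : ℝ) := by norm_num
    rw [this, ← Real.rpow_mul (by norm_num)]
    norm_num
  rw [h2] at h1
  linarith

/-- general allowance -/
theorem inv_gen (m L : ℕ) (hL : 13824 ≤ L) (hLm : L ≤ m) (N : ℕ) (A : Set (List ℕ)) (η : ℝ) (hη : 0 ≤ η) :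
    bb {x : ℝ | track L N x ∈ A} m ≤ GG η N A (Real.log m) +
      4 * Real.exp (-(η * (L : ℝ) ^ (3 / 4 : ℝ) / 1600)) + 3000 * (L : ℝ) ^ (-(1 / 4) : ℝ) := by
  have h1 := main_ind hL (κ := (L : ℝ) ^ (3 / 4 : ℝ) / 1600) (by positivity) le_rfl N A η m hη (by omega)
  refine h1.trans ?_
  unfold WW
  have h2 := g_half (L := L) (by omega)
  have h3 := g_nonneg m
  have h4 := g_le_one' (L / 2)
  have h5 := g_nonneg (L / 2)
  have e1 : -((L : ℝ) ^ (3 / 4 : ℝ) / 1600 * η) = -(η * (L : ℝ) ^ (3 / 4 : ℝ) / 1600) := by ring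
  rw [e1]
  have h6 : 2 * Real.exp (-(η * (L : ℝ) ^ (3 / 4 : ℝ) / 1600)) * (1 + g (L / 2) - g m) ≤
      2 * Real.exp (-(η * (L : ℝ) ^ (3 / 4 : ℝ) / 1600)) * 2 :=
    mul_le_mul_of_nonneg_left (by linarith) (by positivity)
  have h7 : 0 ≤ (L : ℝ) ^ (-(1 / 4) : ℝ) := by positivity
  linarith

theorem inv_final (m L : ℕ) (hL : 1 ≤ L) (hLm : L ≤ m) (N : ℕ) (A : Set (List ℕ)) :
    bb {x : ℝ | track L N x ∈ A} m ≤ GG ((L : ℝ) ^ (-(1 / 2) : ℝ)) N A (Real.log m) +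
      10000 * (L : ℝ) ^ (-(1 / 4) : ℝ) := by
  have h7 : 0 ≤ (L : ℝ) ^ (-(1 / 4) : ℝ) := by positivity
  rcases Nat.lt_or_ge L 13824 with h | h
  · have h1 := small_L hL h
    have h2 := bb_le_one {x : ℝ | track L N x ∈ A} m
    have h3 := gg_nonneg ((L : ℝ) ^ (-(1 / 2) : ℝ)) N A (Real.log m)
    linarith
  · have hL0 : (0 : ℝ) < L := by
      have : 0 < L := by omega
      exact_mod_cast this
    have h1 := inv_gen m L h hLm N A ((L : ℝ) ^ (-(1 / 2) : ℝ)) (by positivity)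
    have e1 : (L : ℝ) ^ (-(1 / 2) : ℝ) * (L : ℝ) ^ (3 / 4 : ℝ) / 1600 = (L : ℝ) ^ (1 / 4 : ℝ) / 1600 := by
      rw [← Real.rpow_add hL0]
      norm_num
    rw [e1] at h1
    have hq : 0 < (L : ℝ) ^ (1 / 4 : ℝ) / 1600 := by positivity
    have h2 : Real.exp (-((L : ℝ) ^ (1 / 4 : ℝ) / 1600)) ≤ 1600 * (L : ℝ) ^ (-(1 / 4) : ℝ) := by
      rw [Real.exp_neg]
      have h3 : (L : ℝ) ^ (1 / 4 : ℝ) / 1600 ≤ Real.exp ((L : ℝ) ^ (1 / 4 : ℝ) / 1600) := by
        have := Real.add_one_le_exp ((L : ℝ) ^ (1 / 4 : ℝ) / 1600)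
        linarith
      have h4 := inv_anti₀ hq h3
      refine h4.trans (le_of_eq ?_)
      rw [Real.rpow_neg hL0.le, inv_div]
      ring
    linarith

/-- Lebesgue measure on the cube -/
theorem gg_volume (η : ℝ) (N : ℕ) (A : Set (List ℕ)) (c : ℝ) :
    ENNReal.ofReal (GG η N A c) =
      volume {u : Fin N → ℝ | (∀ j, 0 ≤ u j ∧ u j ≤ 1) ∧ ∃ h ∈ A, Near η N h c u} := by
  unfold GG
  rw [ofReal_measureReal]
  have e1 : (Measure.pi fun _ : Fin N => uu) =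
      (volume : Measure (Fin N → ℝ)).restrict (Set.univ.pi fun _ => Icc (0 : ℝ) 1) := by
    rw [volume_pi, Measure.restrict_pi_pi]
    rfl
  rw [e1, Measure.restrict_apply]
  · congr 1
    ext u
    simp only [mem_inter_iff, mem_setOf_eq, Set.mem_pi, Set.mem_univ, forall_true_left, mem_Icc]
    exact and_comm
  · exact measurable_prodMk_left (ff_meas η N A)

end Pool.Agent.K9h56.CR
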