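import Pool.Agent.K9h56.CR.Path

/-!
The law of large numbers for the orbits of the points of `[m, m+1)`.
-/

set_option autoImplicit false
set_option linter.all false

namespace Pool.Agent.K9h56.CR

open Real MeasureTheory Set
open Pool.Agent.H934R2.Ch (f df hasDerivAt_f continuous_f continuous_df)
open Pool.Agent.W40.Ch

/-- the orbit of `x` falls below `L` for the first time at the time `τ`, near `log (m / L) / lam`, and until
then its logarithm is near `log m - lam k` -/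
def Typ (ε : ℝ) (L m : ℕ) (x : ℝ) : Prop :=
  ∃ τ : ℕ, f^[τ] x < L ∧ (∀ k : ℕ, k < τ → (L : ℝ) ≤ f^[k] x) ∧
    |lam * τ - Real.log (m / L)| ≤ ε * Real.log m ∧
    ∀ k : ℕ, k ≤ τ → |Real.log (f^[k] x) - (Real.log m - lam * k)| ≤ ε * Real.log m

theorem iter_pos {x : ℝ} (hx : 0 < x) (k : ℕ) : 0 < f^[k] x := by
  induction k with
  | zero => simpa using hx
  | succ k ih =>
    rw [Function.iterate_succ_apply']
    exact f_pos ih

theorem typ_of {δ : ℝ} (hδ : 0 < δ) (hδ1 : δ ≤ 1 / 2) {L m n : ℕ} (hL : 1 ≤ L) (hLm : L ≤ m)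
    (hm : 1 / δ ≤ Real.log m) (hn : 2 * Real.log m ≤ lam * n) {x : ℝ} (hx : x ∈ cell m)
    (h1 : x ∉ Wu L ((m : ℝ) ^ (1 + δ)) n) (h2 : x ∉ Wd L ((m : ℝ) ^ (1 - δ)) n) :
    Typ (2 * δ) L m x := by
  have hL' : (1 : ℝ) ≤ L := by exact_mod_cast hL
  have hLm' : (L : ℝ) ≤ m := by exact_mod_cast hLm
  have hm0 : (0 : ℝ) < m := by linarith
  have hlogm : 0 < Real.log m := lt_of_lt_of_le (by positivity) hm
  have hx0 : 0 < x := lt_of_lt_of_le hm0 hx.1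
  have hb : ∀ k : ℕ, k ≤ n → (∀ i : ℕ, i < k → (L : ℝ) ≤ f^[i] x) →
      |Real.log (f^[k] x) - (Real.log m - lam * k)| ≤ δ * Real.log m := by
    intro k hk hi
    have hp := iter_pos hx0 k
    have a1 : f^[k] x < (m : ℝ) ^ (1 + δ) * Real.exp (-(lam * k)) := by
      by_contra hcon
      exact h1 ⟨k, hk, hi, not_lt.1 hcon⟩
    have a2 : (m : ℝ) ^ (1 - δ) * Real.exp (-(lam * k)) < f^[k] x := by
      by_contra hcon
      exact h2 ⟨k, hk, hi, not_lt.1 hcon⟩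
    have b1 := Real.log_lt_log hp a1
    have b2 := Real.log_lt_log (by positivity) a2
    rw [Real.log_mul (by positivity) (by positivity), Real.log_rpow hm0, Real.log_exp] at b1 b2
    rw [abs_le]
    constructor <;> nlinarith
  have hex : ∃ k : ℕ, k ≤ n ∧ f^[k] x < L := by
    by_contra hcon
    push Not at hcon
    have h3 := hb n le_rfl (fun i hi => hcon i hi.le)
    have h4 := hcon n le_rfl
    have h5 : 0 ≤ Real.log (f^[n] x) := Real.log_nonneg (by linarith)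
    have h6 := (abs_le.1 h3).2
    nlinarith
  classical
  have hex' : ∃ k : ℕ, f^[k] x < L := by
    obtain ⟨k, _, hk⟩ := hex
    exact ⟨k, hk⟩
  set τ := Nat.find hex' with hτ
  have hτ1 : f^[τ] x < L := Nat.find_spec hex'
  have hτ2 : ∀ k : ℕ, k < τ → (L : ℝ) ≤ f^[k] x := fun k hk => not_lt.1 (Nat.find_min hex' hk)
  have hτn : τ ≤ n := by
    obtain ⟨k, hk1, hk2⟩ := hex
    exact (Nat.find_min' hex' hk2).trans hk1
  have hτ0 : 1 ≤ τ := by
    by_contra hcon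
    have h0 : τ = 0 := by omega
    rw [h0] at hτ1
    simp at hτ1
    linarith [hx.1]
  have hlogL : 0 ≤ Real.log L := Real.log_nonneg hL'
  refine ⟨τ, hτ1, hτ2, ?_, fun k hk => ?_⟩
  · have c1 := hb τ hτn hτ2
    have c2 := hb (τ - 1) (by omega) (fun i hi => hτ2 i (by omega))
    have d1 := Real.log_lt_log (iter_pos hx0 τ) hτ1
    have d2 := Real.log_le_log (by linarith) (hτ2 (τ - 1) (by omega))
    have e1 : ((τ - 1 : ℕ) : ℝ) = (τ : ℝ) - 1 := by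
      rw [Nat.cast_sub hτ0, Nat.cast_one]
    rw [e1] at c2
    have hl := lam_lt
    have hl0 := lam_pos
    have hdm : 1 ≤ δ * Real.log m := by
      rw [div_le_iff₀ hδ] at hm
      linarith
    rw [Real.log_div hm0.ne' (by linarith)]
    rw [abs_le] at c1 c2 ⊢
    constructor <;> nlinarith [c1.1, c1.2, c2.1, c2.2]
  · refine (hb k (hk.trans hτn) (fun i hi => hτ2 i (by omega))).trans ?_
    nlinarith

theorem lln {ε : ℝ} (hε : 0 < ε) : ∃ C c : ℝ, 0 < c ∧ ∀ m L : ℕ, 1 ≤ L → L ≤ m →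
    volume.real ({x | ¬ Typ ε L m x} ∩ cell m) ≤ C * ((m : ℝ) ^ (-c) + (L : ℝ) ^ (-(1 / 4) : ℝ)) := by
  set δ : ℝ := min ε 1 / 2 with hδ
  have hδ0 : 0 < δ := by
    rw [hδ]
    have : 0 < min ε 1 := lt_min hε one_pos
    linarith
  have hδ1 : δ ≤ 1 / 2 := by
    rw [hδ]
    have := min_le_right ε 1
    linarith
  have hδε : 2 * δ ≤ ε := by
    rw [hδ]
    have := min_le_left ε 1
    linarith
  have hl0 := lam_pos
  have hl1 := lam_lt
  set s : ℝ := lam * δ / 12 with hs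
  have hs0 : 0 < s := by rw [hs]; positivity
  have hs1 : s ≤ 1 := by
    rw [hs]
    nlinarith
  obtain ⟨L1, hL1⟩ := up_ind hs0 hs1
  obtain ⟨L2, hL2⟩ := down_ind hs0 hs1
  obtain ⟨m1, hm1⟩ := exists_nat_ge (Real.exp (1 / δ))
  set L0 : ℕ := max (max L1 L2) 2 with hL0
  set c : ℝ := s * δ / 2 with hc
  have hc0 : 0 < c := by rw [hc]; positivity
  set D : ℝ := Real.exp 1 with hD
  have hm1pos : (0 : ℝ) < m1 := lt_of_lt_of_le (Real.exp_pos _) hm1
  have hL0pos : (0 : ℝ) < L0 := by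
    have : 2 ≤ L0 := le_max_right _ _
    exact_mod_cast (by omega : 0 < L0)
  refine ⟨3 * D + 5808 + (L0 : ℝ) ^ (1 / 4 : ℝ) + (m1 : ℝ) ^ c, c, hc0, fun m L hL hLm => ?_⟩
  have hL' : (1 : ℝ) ≤ L := by exact_mod_cast hL
  have hLm' : (L : ℝ) ≤ m := by exact_mod_cast hLm
  have hm0 : (0 : ℝ) < m := by linarith
  have hp1 : 0 < (m : ℝ) ^ (-c) := Real.rpow_pos_of_pos hm0 _
  have hp2 : 0 < (L : ℝ) ^ (-(1 / 4) : ℝ) := Real.rpow_pos_of_pos (by linarith) _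
  have hp3 : 0 < (L0 : ℝ) ^ (1 / 4 : ℝ) := Real.rpow_pos_of_pos hL0pos _
  have hp4 : 0 < (m1 : ℝ) ^ c := Real.rpow_pos_of_pos hm1pos _
  have hD0 : 0 < D := Real.exp_pos _
  have htriv : volume.real ({x | ¬ Typ ε L m x} ∩ cell m) ≤ 1 := bb_le_one _ _
  rcases Nat.lt_or_ge L L0 with hLL | hLL
  · refine htriv.trans ?_
    have h1 : (1 : ℝ) ≤ (L0 : ℝ) ^ (1 / 4 : ℝ) * (L : ℝ) ^ (-(1 / 4) : ℝ) := by
      rw [Real.rpow_neg (by linarith), ← div_eq_mul_inv, one_le_div (by positivity)]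
      exact Real.rpow_le_rpow (by linarith) (by exact_mod_cast hLL.le) (by norm_num)
    nlinarith [mul_pos hp3 hp1, mul_pos hp4 hp1, mul_pos hp4 hp2, mul_pos hD0 hp1, mul_pos hD0 hp2]
  rcases Nat.lt_or_ge m m1 with hmm | hmm
  · refine htriv.trans ?_
    have h1 : (1 : ℝ) ≤ (m1 : ℝ) ^ c * (m : ℝ) ^ (-c) := by
      rw [Real.rpow_neg hm0.le, ← div_eq_mul_inv, one_le_div (by positivity)]
      exact Real.rpow_le_rpow hm0.le (by exact_mod_cast hmm.le) hc0.le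
    nlinarith [mul_pos hp3 hp1, mul_pos hp3 hp2, mul_pos hp4 hp2, mul_pos hD0 hp1, mul_pos hD0 hp2]
  have hm1' : Real.exp (1 / δ) ≤ m := hm1.trans (by exact_mod_cast hmm)
  have hlogm : 1 / δ ≤ Real.log m := by
    rw [Real.le_log_iff_exp_le hm0]
    exact hm1'
  have hlogm0 : 0 < Real.log m := lt_of_lt_of_le (by positivity) hlogm
  set n : ℕ := ⌈2 * Real.log m / lam⌉₊ with hn
  have hn1 : 2 * Real.log m ≤ lam * n := by
    have h1 := Nat.le_ceil (2 * Real.log m / lam)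
    rw [div_le_iff₀ hl0] at h1
    rw [hn]
    linarith
  have hn2 : (n : ℝ) ≤ 2 * Real.log m / lam + 1 := (Nat.ceil_lt_add_one (by positivity)).le
  have hsub : {x | ¬ Typ ε L m x} ∩ cell m ⊆
      (Wu L ((m : ℝ) ^ (1 + δ)) n ∩ cell m) ∪ (Wd L ((m : ℝ) ^ (1 - δ)) n ∩ cell m) := by
    rintro x ⟨hx1, hx2⟩
    by_contra hcon
    rw [mem_union, not_or] at hcon
    apply hx1
    have h3 := typ_of hδ0 hδ1 hL hLm hlogm hn1 hx2 (fun h => hcon.1 ⟨h, hx2⟩) (fun h => hcon.2 ⟨h, hx2⟩)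
    obtain ⟨τ, a1, a2, a3, a4⟩ := h3
    exact ⟨τ, a1, a2, a3.trans (mul_le_mul_of_nonneg_right hδε hlogm0.le),
      fun k hk => (a4 k hk).trans (mul_le_mul_of_nonneg_right hδε hlogm0.le)⟩
  have hle : volume.real ({x | ¬ Typ ε L m x} ∩ cell m) ≤
      bb (Wu L ((m : ℝ) ^ (1 + δ)) n) m + bb (Wd L ((m : ℝ) ^ (1 - δ)) n) m := by
    refine (measureReal_mono hsub ?_).trans (measureReal_union_le _ _)
    exact ((measure_union_le _ _).trans_lt (ENNReal.add_lt_top.2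
      ⟨(inter_fin' _ _).lt_top, (inter_fin' _ _).lt_top⟩)).ne
  have hB1 : 0 < (m : ℝ) ^ (1 + δ) := Real.rpow_pos_of_pos hm0 _
  have hB2 : 0 < (m : ℝ) ^ (1 - δ) := Real.rpow_pos_of_pos hm0 _
  have hLL1 : L1 ≤ L := ((le_max_left _ _).trans (le_max_left _ _)).trans hLL
  have hLL2 : L2 ≤ L := ((le_max_right _ _).trans (le_max_left _ _)).trans hLL
  have hL2' : 2 ≤ L := (le_max_right _ _).trans hLL
  have u1 := hL1 L hLL1 n _ hB1 m (by omega)
  have u2 := hL2 L hLL2 n _ hB2 m (by omega)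
  have hg := g_half hL2'
  have hg0 := g_nonneg m
  -- the exponential factor
  have hE : Real.exp (3 * s ^ 2 * n) ≤ D * (m : ℝ) ^ (s * δ / 2) := by
    have h1 : 3 * s ^ 2 * n ≤ 1 + Real.log m * (s * δ / 2) := by
      have h2 : 3 * s ^ 2 * (n : ℝ) ≤ 3 * s ^ 2 * (2 * Real.log m / lam + 1) :=
        mul_le_mul_of_nonneg_left hn2 (by positivity)
      have h3 : 3 * s ^ 2 * (2 * Real.log m / lam) = Real.log m * (s * δ / 2) := by
        rw [hs]
        field_simp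
        ring
      have h4 : 3 * s ^ 2 ≤ 1 := by
        have : s ≤ 1 / 10 := by rw [hs]; nlinarith
        nlinarith
      nlinarith
    calc Real.exp (3 * s ^ 2 * n) ≤ Real.exp (1 + Real.log m * (s * δ / 2)) := Real.exp_le_exp.2 h1
      _ = D * (m : ℝ) ^ (s * δ / 2) := by
          rw [Real.exp_add, Real.rpow_def_of_pos hm0]
  have hE0 : 0 < (m : ℝ) ^ (s * δ / 2) := Real.rpow_pos_of_pos hm0 _
  have v1 : Real.exp (3 * s ^ 2 * n) * ((m : ℝ) ^ (1 + δ)) ^ (-s) * ((m : ℝ) + 1) ^ s ≤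
      2 * D * (m : ℝ) ^ (-c) := by
    have h1 : ((m : ℝ) + 1) ^ s ≤ 2 * (m : ℝ) ^ s := by
      calc ((m : ℝ) + 1) ^ s ≤ (2 * (m : ℝ)) ^ s := Real.rpow_le_rpow (by positivity) (by linarith) hs0.le
        _ = (2 : ℝ) ^ s * (m : ℝ) ^ s := Real.mul_rpow (by norm_num) hm0.le
        _ ≤ 2 * (m : ℝ) ^ s := by
            apply mul_le_mul_of_nonneg_right _ (by positivity)
            calc (2 : ℝ) ^ s ≤ (2 : ℝ) ^ (1 : ℝ) := Real.rpow_le_rpow_of_exponent_le (by norm_num) hs1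
              _ = 2 := Real.rpow_one _
    have h2 : ((m : ℝ) ^ (1 + δ)) ^ (-s) = (m : ℝ) ^ ((1 + δ) * (-s)) := by rw [← Real.rpow_mul hm0.le]
    rw [h2]
    calc Real.exp (3 * s ^ 2 * n) * (m : ℝ) ^ ((1 + δ) * (-s)) * ((m : ℝ) + 1) ^ s
        ≤ (D * (m : ℝ) ^ (s * δ / 2)) * (m : ℝ) ^ ((1 + δ) * (-s)) * (2 * (m : ℝ) ^ s) := by
          gcongr
      _ = 2 * D * ((m : ℝ) ^ (s * δ / 2) * (m : ℝ) ^ ((1 + δ) * (-s)) * (m : ℝ) ^ s) := by ring
      _ = 2 * D * (m : ℝ) ^ (-c) := by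
          rw [← Real.rpow_add hm0, ← Real.rpow_add hm0]
          congr 2
          rw [hc]
          ring
  have v2 : Real.exp (3 * s ^ 2 * n) * ((m : ℝ) ^ (1 - δ)) ^ s * (m : ℝ) ^ (-s) ≤ D * (m : ℝ) ^ (-c) := by
    have h2 : ((m : ℝ) ^ (1 - δ)) ^ s = (m : ℝ) ^ ((1 - δ) * s) := by rw [← Real.rpow_mul hm0.le]
    rw [h2]
    calc Real.exp (3 * s ^ 2 * n) * (m : ℝ) ^ ((1 - δ) * s) * (m : ℝ) ^ (-s)
        ≤ (D * (m : ℝ) ^ (s * δ / 2)) * (m : ℝ) ^ ((1 - δ) * s) * (m : ℝ) ^ (-s) := by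
          gcongr
      _ = D * ((m : ℝ) ^ (s * δ / 2) * (m : ℝ) ^ ((1 - δ) * s) * (m : ℝ) ^ (-s)) := by ring
      _ = D * (m : ℝ) ^ (-c) := by
          rw [← Real.rpow_add hm0, ← Real.rpow_add hm0]
          congr 2
          rw [hc]
          ring
  have w1 : volume.real ({x | ¬ Typ ε L m x} ∩ cell m) ≤
      3 * D * (m : ℝ) ^ (-c) + 5808 * (L : ℝ) ^ (-(1 / 4) : ℝ) := by linarith
  refine w1.trans ?_
  nlinarith [mul_pos hp3 hp1, mul_pos hp3 hp2, mul_pos hp4 hp1, mul_pos hp4 hp2, mul_pos hD0 hp1, mul_pos hD0 hp2]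

end Pool.Agent.K9h56.CR
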