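import Mathlib

/-!
The integral of `log (1 - cos (π x) / 2)` over unit intervals between integers.
-/

set_option autoImplicit false
set_option linter.all false

namespace Pool.Agent.K9h56.CR

open Real MeasureTheory Set

/-- the mean drift: `log (4 / (2 + √3))` -/
noncomputable def lam : ℝ := Real.log (4 / (2 + √3))

theorem sqrt3 : √3 ^ 2 = 3 := Real.sq_sqrt (by norm_num)

theorem sqrt3_lt : √3 < 2 := by
  nlinarith [sqrt3, Real.sqrt_nonneg 3]

theorem sqrt3_gt : (1.7 : ℝ) < √3 := by
  rw [Real.lt_sqrt (by norm_num)]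
  norm_num

/-- full circle -/
theorem int_circle : ∫ θ in (0 : ℝ)..2 * π, Real.log (1 - Real.cos θ / 2) = - (2 * π) * lam := by
  set a : ℝ := 2 - √3 with ha
  have h3 := sqrt3
  have h2 := sqrt3_lt
  have h1 := sqrt3_gt
  have ha0 : 0 < a := by rw [ha]; linarith
  have ha1 : a < 1 := by rw [ha]; linarith
  have hq : 1 + a ^ 2 = 4 * a := by rw [ha]; nlinarith
  have h := circleAverage_log_norm_sub_const₀ (a := (a : ℂ)) (by
    rw [Complex.norm_real, Real.norm_eq_abs, abs_of_pos ha0]; exact ha1)
  unfold circleAverage at h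
  have hlam : lam = Real.log (1 + a ^ 2) := by
    unfold lam
    congr 1
    rw [hq, ha]
    field_simp
    nlinarith
  have key : ∀ θ : ℝ, Real.log ‖circleMap 0 1 θ - (a : ℂ)‖ =
      (1 / 2) * Real.log (1 + a ^ 2) + (1 / 2) * Real.log (1 - Real.cos θ / 2) := by
    intro θ
    have hpos : 0 < 1 - Real.cos θ / 2 := by
      have := Real.cos_le_one θ
      linarith
    have hn : ‖circleMap 0 1 θ - (a : ℂ)‖ ^ 2 = (1 + a ^ 2) * (1 - Real.cos θ / 2) := by
      rw [← Complex.normSq_eq_norm_sq, Complex.normSq_apply]
      have hre : (circleMap 0 1 θ - (a : ℂ)).re = Real.cos θ - a := by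
        simp [circleMap, Complex.exp_re]
      have him : (circleMap 0 1 θ - (a : ℂ)).im = Real.sin θ := by
        simp [circleMap, Complex.exp_im]
      rw [hre, him]
      have := Real.sin_sq_add_cos_sq θ
      nlinarith
    have h4 : Real.log ‖circleMap 0 1 θ - (a : ℂ)‖ = (1 / 2) * Real.log (‖circleMap 0 1 θ - (a : ℂ)‖ ^ 2) := by
      rw [Real.log_pow]; push_cast; ring
    rw [h4, hn, Real.log_mul (by positivity) hpos.ne']
    ring
  simp only [key] at h
  have hc : Continuous fun θ : ℝ => Real.log (1 - Real.cos θ / 2) := by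
    apply Continuous.log (by fun_prop)
    intro θ
    have := Real.cos_le_one θ
    linarith
  rw [intervalIntegral.integral_add (by simp) ((hc.const_mul _).intervalIntegrable _ _ |> fun h => by simpa using h),
    intervalIntegral.integral_const, intervalIntegral.integral_const_mul] at h
  rw [hlam]
  have hp : (0 : ℝ) < 2 * π := by positivity
  rw [smul_eq_mul, smul_eq_mul, sub_zero] at h
  have h5 := (mul_eq_zero.1 h).resolve_left (inv_ne_zero hp.ne')
  linarith

/-- unit intervals -/
theorem int_cell (m : ℕ) : ∫ x in (m : ℝ)..m + 1, Real.log (1 - Real.cos (π * x) / 2) = - lam := by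
  have hc : Continuous fun θ : ℝ => Real.log (1 - Real.cos θ / 2) := by
    apply Continuous.log (by fun_prop)
    intro θ
    have := Real.cos_le_one θ
    linarith
  set F : ℝ → ℝ := fun x => Real.log (1 - Real.cos (π * x) / 2) with hF
  have hFc : Continuous F := hc.comp (continuous_const.mul continuous_id)
  have hper : Function.Periodic F 2 := by
    intro x
    simp only [hF]
    rw [show π * (x + 2) = π * x + 2 * π by ring, Real.cos_add_two_pi]
  have h02 : ∫ x in (0 : ℝ)..2, F x = -2 * lam := by
    have h := intervalIntegral.integral_comp_mul_left (fun θ => Real.log (1 - Real.cos θ / 2)) (c := π)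
      Real.pi_ne_zero (a := 0) (b := 2)
    rw [hF, h, mul_zero, mul_comm π 2, int_circle, smul_eq_mul]
    have := Real.pi_ne_zero
    field_simp
  have hsym : ∫ x in (1 : ℝ)..2, F x = ∫ x in (0 : ℝ)..1, F x := by
    have h := intervalIntegral.integral_comp_sub_left F (2 : ℝ) (a := 0) (b := 1)
    have h2 : ∀ x, F (2 - x) = F x := by
      intro x
      simp only [hF]
      rw [show π * (2 - x) = 2 * π - π * x by ring, Real.cos_two_pi_sub]
    simp only [h2] at h
    rw [h]
    norm_num
  have hsplit := intervalIntegral.integral_add_adjacent_intervals (μ := volume)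
    (hFc.intervalIntegrable 0 1) (hFc.intervalIntegrable 1 2)
  have h01 : ∫ x in (0 : ℝ)..1, F x = - lam := by linarith
  have h12 : ∫ x in (1 : ℝ)..2, F x = - lam := by linarith
  rcases Nat.even_or_odd' m with ⟨k, hk | hk⟩
  · have h := intervalIntegral.integral_comp_add_right F ((2 * k : ℕ) : ℝ) (a := 0) (b := 1)
    have h2 : ∀ x, F (x + ((2 * k : ℕ) : ℝ)) = F x := by
      intro x
      have := hper.nat_mul k x
      push_cast at this ⊢
      rw [mul_comm (2 : ℝ) (k : ℝ)]
      exact this
    simp only [h2] at h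
    rw [hk]
    rw [h01] at h
    rw [h]
    congr 1
    · simp
    · ring
  · have h := intervalIntegral.integral_comp_add_right F ((2 * k : ℕ) : ℝ) (a := 1) (b := 2)
    have h2 : ∀ x, F (x + ((2 * k : ℕ) : ℝ)) = F x := by
      intro x
      have := hper.nat_mul k x
      push_cast at this ⊢
      rw [mul_comm (2 : ℝ) (k : ℝ)]
      exact this
    simp only [h2] at h
    rw [hk]
    rw [h12] at h
    rw [h]
    congr 1
    · push_cast; ring
    · push_cast; ring

theorem lam_pos : 0 < lam := by
  unfold lam
  apply Real.log_pos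
  rw [lt_div_iff₀ (by positivity)]
  linarith [sqrt3_lt]

theorem lam_lt : lam < 1 / 10 := by
  unfold lam
  have h1 : (4 : ℝ) / (2 + √3) < 1 + 1 / 10 - 1 / 100 := by
    rw [div_lt_iff₀ (by positivity)]
    linarith [sqrt3_gt]
  have h2 := Real.log_lt_log (by positivity) h1
  have h3 := Real.log_le_sub_one_of_pos (x := (1 + 1 / 10 - 1 / 100 : ℝ)) (by norm_num)
  linarith

end Pool.Agent.K9h56.CR
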