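import Pool.Agent.K9h56.CR.InvFin

/-!
The random walk does not come back from far below.
-/

set_option autoImplicit false
set_option linter.all false

namespace Pool.Agent.K9h56.CR

open Real MeasureTheory Set
open Pool.Agent.H934R2.Ch (f df hasDerivAt_f continuous_f continuous_df)
open Pool.Agent.W40.Ch

/-- the product measure -/
noncomputable abbrev pm (N : ℕ) : Measure (Fin N → ℝ) := Measure.pi fun _ : Fin N => uu

theorem pm_step (N : ℕ) {T : Set (ℝ × (Fin N → ℝ))} (hT : MeasurableSet T) (c : ℝ) :
    (pm (N + 1)).real {u | (c + Real.log (yy (u 0)), fun j : Fin N => u j.succ) ∈ T} =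
      ∫ x, (pm N).real {u | (c + Real.log (yy x), u) ∈ T} ∂uu := by
  have hmp := measurePreserving_piFinSuccAbove (fun _ : Fin (N + 1) => uu) 0
  set T' : Set (ℝ × (Fin N → ℝ)) := {p | (c + Real.log (yy p.1), p.2) ∈ T} with hT'
  have hTm : MeasurableSet T' := by
    have : Measurable fun p : ℝ × (Fin N → ℝ) => (c + Real.log (yy p.1), p.2) :=
      (measurable_const.add (continuous_log_yy.measurable.comp measurable_fst)).prodMk measurable_snd
    exact this hT
  have h1 : ∫ x, (pm N).real {u | (c + Real.log (yy x), u) ∈ T} ∂uu = (uu.prod (pm N)).real T' := by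
    rw [Measure.real, Measure.prod_apply hTm, ← integral_toReal]
    · rfl
    · exact (measurable_measure_prodMk_left hTm).aemeasurable
    · exact Filter.Eventually.of_forall fun x => measure_lt_top _ _
  rw [h1]
  have h2 : (uu.prod (pm N)).real T' =
      (pm (N + 1)).real ((MeasurableEquiv.piFinSuccAbove (fun _ : Fin (N + 1) => ℝ) 0) ⁻¹' T') := by
    rw [Measure.real, Measure.real, hmp.measure_preimage hTm.nullMeasurableSet]
  rw [h2]
  rfl

theorem int_yy_one : ∫ x, yy x ∂uu = 1 := by
  have h := int_yy 0 (fun y => y)
  rw [← h]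
  have h2 := int_cos 0 1 (-1 / 2) 0
  simp only [mul_zero, zero_mul, zero_div, add_zero, one_mul, mul_one] at h2
  rw [← h2]
  apply integral_congr_ae
  refine Filter.Eventually.of_forall fun x => ?_
  simp only [yy]
  ring

theorem int_log_uu : ∫ x, Real.log (yy x) ∂uu = - lam := by
  rw [← int_yy 0 Real.log]
  exact int_log 0

theorem bdd_int {N : ℕ} {F : ℝ → ℝ} {M : ℝ} (hF : Measurable F) (hb : ∀ x, |F x| ≤ M) : Integrable F uu := by
  refine Integrable.of_bound hF.aestronglyMeasurable M ?_
  exact Filter.Eventually.of_forall fun x => by rw [Real.norm_eq_abs]; exact hb x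

/-- Markov's inequality for the exponential of the walk -/
theorem markov (N : ℕ) : ∀ c M : ℝ, (pm N).real {u | M < c + lw N u N} ≤ Real.exp (c - M) := by
  induction N with
  | zero =>
    intro c M
    rcases lt_or_ge M c with h | h
    · refine measureReal_le_one.trans ?_
      exact Real.one_le_exp (by linarith)
    · have : {u : Fin 0 → ℝ | M < c + lw 0 u 0} = ∅ := by
        ext u
        simp only [mem_setOf_eq, mem_empty_iff_false, iff_false, not_lt, lw_zero]
        linarith
      rw [this]
      simp only [measureReal_empty]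
      exact (Real.exp_pos _).le
  | succ N ih =>
    intro c M
    have hT : MeasurableSet {p : ℝ × (Fin N → ℝ) | M < p.1 + lw N p.2 N} :=
      measurableSet_lt measurable_const (measurable_fst.add ((lw_meas N N).comp measurable_snd))
    have h1 := pm_step N hT c
    have e1 : {u : Fin (N + 1) → ℝ | M < c + lw (N + 1) u (N + 1)} =
        {u | (c + Real.log (yy (u 0)), fun j : Fin N => u j.succ) ∈
          {p : ℝ × (Fin N → ℝ) | M < p.1 + lw N p.2 N}} := by
      ext u
      simp only [mem_setOf_eq]
      rw [lw_succ, add_assoc]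
    rw [e1, h1]
    have h2 : ∀ x, (pm N).real {u | (c + Real.log (yy x), u) ∈ {p : ℝ × (Fin N → ℝ) | M < p.1 + lw N p.2 N}} ≤
        Real.exp (c - M) * yy x := by
      intro x
      refine (ih (c + Real.log (yy x)) M).trans (le_of_eq ?_)
      have : c + Real.log (yy x) - M = (c - M) + Real.log (yy x) := by ring
      rw [this, Real.exp_add, Real.exp_log (yy_pos x)]
    have hmeas : Measurable fun x => (pm N).real {u | (c + Real.log (yy x), u) ∈
        {p : ℝ × (Fin N → ℝ) | M < p.1 + lw N p.2 N}} := by
      have h3 := measurable_measure_prodMk_left (ν := pm N) hT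
      exact (h3.comp (measurable_const.add continuous_log_yy.measurable)).ennreal_toReal
    have h4 : ∫ x, (pm N).real {u | (c + Real.log (yy x), u) ∈
        {p : ℝ × (Fin N → ℝ) | M < p.1 + lw N p.2 N}} ∂uu ≤ ∫ x, Real.exp (c - M) * yy x ∂uu := by
      apply integral_mono
      · exact bdd_int (N := N) (M := 1) hmeas fun x => by
          rw [abs_of_nonneg measureReal_nonneg]
          exact measureReal_le_one
      · exact bdd_int (N := N) (M := Real.exp (c - M) * 2) (continuous_const.mul continuous_yy).measurable
          fun x => by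
            rw [abs_of_nonneg (mul_nonneg (Real.exp_pos _).le (yy_pos x).le)]
            exact mul_le_mul_of_nonneg_left (by linarith [yy_ub x]) (Real.exp_pos _).le
      · exact h2
    refine h4.trans (le_of_eq ?_)
    rw [integral_const_mul, int_yy_one, mul_one]

/-- the walk which has been below `0` is not above `M` -/
theorem comeback (N : ℕ) : ∀ c M : ℝ, 0 ≤ M →
    (pm N).real {u | (∃ i : ℕ, i ≤ N ∧ c + lw N u i ≤ 0) ∧ M < c + lw N u N} ≤ Real.exp (-M) := by
  induction N with
  | zero =>
    intro c M hM
    have : {u : Fin 0 → ℝ | (∃ i : ℕ, i ≤ 0 ∧ c + lw 0 u i ≤ 0) ∧ M < c + lw 0 u 0} = ∅ := by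
      ext u
      simp only [mem_setOf_eq, mem_empty_iff_false, iff_false, not_and, not_lt]
      rintro ⟨i, hi, h⟩
      obtain rfl : i = 0 := by omega
      linarith
    rw [this]
    simp only [measureReal_empty]
    exact (Real.exp_pos _).le
  | succ N ih =>
    intro c M hM
    rcases le_or_gt c 0 with hc | hc
    · refine (measureReal_mono (fun u hu => hu.2) (measure_ne_top _ _)).trans ((markov (N + 1) c M).trans ?_)
      exact Real.exp_le_exp.2 (by linarith)
    · set T : Set (ℝ × (Fin N → ℝ)) :=
        {p | (∃ i : ℕ, i ≤ N ∧ p.1 + lw N p.2 i ≤ 0) ∧ M < p.1 + lw N p.2 N} with hTdef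
      have hT : MeasurableSet T := by
        have e : T = (⋃ i : ℕ, ⋃ _ : i ≤ N, {p : ℝ × (Fin N → ℝ) | p.1 + lw N p.2 i ≤ 0}) ∩
            {p | M < p.1 + lw N p.2 N} := by
          ext p
          simp only [hTdef, mem_setOf_eq, mem_inter_iff, mem_iUnion, exists_prop]
        rw [e]
        refine MeasurableSet.inter (MeasurableSet.iUnion fun i => MeasurableSet.iUnion fun _ => ?_) ?_
        · exact measurableSet_le (measurable_fst.add ((lw_meas N i).comp measurable_snd)) measurable_const
        · exact measurableSet_lt measurable_const (measurable_fst.add ((lw_meas N N).comp measurable_snd))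
      have h1 := pm_step N hT c
      have hsub : {u : Fin (N + 1) → ℝ | (∃ i : ℕ, i ≤ N + 1 ∧ c + lw (N + 1) u i ≤ 0) ∧
          M < c + lw (N + 1) u (N + 1)} ⊆
          {u | (c + Real.log (yy (u 0)), fun j : Fin N => u j.succ) ∈ T} := by
        rintro u ⟨⟨i, hi, h2⟩, h3⟩
        rcases i with _ | i
        · rw [lw_zero] at h2
          linarith
        · rw [lw_succ] at h2 h3
          refine ⟨⟨i, by omega, ?_⟩, ?_⟩
          · simp only
            linarith
          · simp only
            linarith
      refine (measureReal_mono hsub (measure_ne_top _ _)).trans ?_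
      rw [h1]
      have hmeas : Measurable fun x => (pm N).real {u | (c + Real.log (yy x), u) ∈ T} := by
        have h3 := measurable_measure_prodMk_left (ν := pm N) hT
        exact (h3.comp (measurable_const.add continuous_log_yy.measurable)).ennreal_toReal
      have h4 : ∫ x, (pm N).real {u | (c + Real.log (yy x), u) ∈ T} ∂uu ≤ ∫ x, Real.exp (-M) ∂uu := by
        apply integral_mono
        · exact bdd_int (N := N) (M := 1) hmeas fun x => by
            rw [abs_of_nonneg measureReal_nonneg]
            exact measureReal_le_one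
        · exact integrable_const _
        · intro x
          exact ih (c + Real.log (yy x)) M hM
      refine h4.trans (le_of_eq ?_)
      simp

/-- the minimum and the last value of the walk -/
theorem min_last (N : ℕ) (b M : ℝ) (hM : 0 ≤ M) :
    (pm N).real {u | ∃ i : ℕ, i ≤ N ∧ lw N u i ≤ -b} ≤
      (pm N).real {u | lw N u N ≤ -b + M} + Real.exp (-M) := by
  have h1 := comeback N b M hM
  have hsub : {u : Fin N → ℝ | ∃ i : ℕ, i ≤ N ∧ lw N u i ≤ -b} ⊆
      {u | lw N u N ≤ -b + M} ∪ {u | (∃ i : ℕ, i ≤ N ∧ b + lw N u i ≤ 0) ∧ M < b + lw N u N} := by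
    rintro u ⟨i, hi, h2⟩
    by_cases h3 : lw N u N ≤ -b + M
    · exact Or.inl h3
    · exact Or.inr ⟨⟨i, hi, by linarith⟩, by linarith⟩
  refine (measureReal_mono hsub (measure_ne_top _ _)).trans ((measureReal_union_le _ _).trans ?_)
  linarith

end Pool.Agent.K9h56.CR
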