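import Pool.Agent.K9h56.CR.Step

/-!
The orbits of most points of `[m, m+1)` stay between `B₁ exp (- lam k)` and `B₂ exp (- lam k)`.
-/

set_option autoImplicit false
set_option linter.all false

namespace Pool.Agent.K9h56.CR

open Real MeasureTheory Set
open Pool.Agent.H934R2.Ch (f df hasDerivAt_f continuous_f continuous_df)
open Pool.Agent.W40.Ch

/-- the orbit exceeds `B exp (- lam k)` at some time `k ≤ n` before it falls below `L` -/
def Wu (L : ℕ) (B : ℝ) (n : ℕ) : Set ℝ :=
  {x | ∃ k : ℕ, k ≤ n ∧ (∀ i : ℕ, i < k → (L : ℝ) ≤ f^[i] x) ∧ B * Real.exp (-(lam * k)) ≤ f^[k] x}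

/-- the orbit is below `B exp (- lam k)` at some time `k ≤ n` before or when it falls below `L` -/
def Wd (L : ℕ) (B : ℝ) (n : ℕ) : Set ℝ :=
  {x | ∃ k : ℕ, k ≤ n ∧ (∀ i : ℕ, i < k → (L : ℝ) ≤ f^[i] x) ∧ f^[k] x ≤ B * Real.exp (-(lam * k))}

theorem wu_meas (L : ℕ) (B : ℝ) (n : ℕ) : MeasurableSet (Wu L B n) := by
  have e : Wu L B n = ⋃ k : ℕ, ⋃ _ : k ≤ n, (⋂ i : ℕ, ⋂ _ : i < k, (f^[i]) ⁻¹' Ici (L : ℝ)) ∩
      (f^[k]) ⁻¹' Ici (B * Real.exp (-(lam * k))) := by
    ext x
    simp only [Wu, mem_setOf_eq, mem_iUnion, exists_prop, mem_inter_iff, mem_iInter, mem_preimage, mem_Ici]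
  rw [e]
  exact MeasurableSet.iUnion fun k => MeasurableSet.iUnion fun _ =>
    (MeasurableSet.iInter fun i => MeasurableSet.iInter fun _ =>
      (continuous_f.iterate i).measurable measurableSet_Ici).inter
    ((continuous_f.iterate k).measurable measurableSet_Ici)

theorem wd_meas (L : ℕ) (B : ℝ) (n : ℕ) : MeasurableSet (Wd L B n) := by
  have e : Wd L B n = ⋃ k : ℕ, ⋃ _ : k ≤ n, (⋂ i : ℕ, ⋂ _ : i < k, (f^[i]) ⁻¹' Ici (L : ℝ)) ∩
      (f^[k]) ⁻¹' Iic (B * Real.exp (-(lam * k))) := by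
    ext x
    simp only [Wd, mem_setOf_eq, mem_iUnion, exists_prop, mem_inter_iff, mem_iInter, mem_preimage, mem_Ici, mem_Iic]
  rw [e]
  exact MeasurableSet.iUnion fun k => MeasurableSet.iUnion fun _ =>
    (MeasurableSet.iInter fun i => MeasurableSet.iInter fun _ =>
      (continuous_f.iterate i).measurable measurableSet_Ici).inter
    ((continuous_f.iterate k).measurable measurableSet_Iic)

theorem shift_exp (B : ℝ) (k : ℕ) :
    B * Real.exp (-lam) * Real.exp (-(lam * k)) = B * Real.exp (-(lam * ((k + 1 : ℕ) : ℝ))) := by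
  rw [mul_assoc, ← Real.exp_add]
  congr 2
  push_cast
  ring

theorem wu_step {L : ℕ} {B : ℝ} {n : ℕ} {x : ℝ} (h : x ∈ Wu L B (n + 1)) (hx : x < B) :
    (L : ℝ) ≤ x ∧ f x ∈ Wu L (B * Real.exp (-lam)) n := by
  obtain ⟨k, hk, h1, h2⟩ := h
  rcases Nat.eq_zero_or_pos k with h0 | h0
  · subst h0
    simp at h2
    linarith
  · obtain ⟨j, rfl⟩ : ∃ j, k = j + 1 := ⟨k - 1, by omega⟩
    refine ⟨h1 0 (by omega), j, by omega, fun i hi => ?_, ?_⟩
    · have := h1 (i + 1) (by omega)
      rwa [Function.iterate_succ_apply] at this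
    · rw [Function.iterate_succ_apply] at h2
      rw [shift_exp]
      exact h2

theorem wd_step {L : ℕ} {B : ℝ} {n : ℕ} {x : ℝ} (h : x ∈ Wd L B (n + 1)) (hx : B < x) :
    (L : ℝ) ≤ x ∧ f x ∈ Wd L (B * Real.exp (-lam)) n := by
  obtain ⟨k, hk, h1, h2⟩ := h
  rcases Nat.eq_zero_or_pos k with h0 | h0
  · subst h0
    simp at h2
    linarith
  · obtain ⟨j, rfl⟩ : ∃ j, k = j + 1 := ⟨k - 1, by omega⟩
    refine ⟨h1 0 (by omega), j, by omega, fun i hi => ?_, ?_⟩
    · have := h1 (i + 1) (by omega)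
      rwa [Function.iterate_succ_apply] at this
    · rw [Function.iterate_succ_apply] at h2
      rw [shift_exp]
      exact h2

theorem bb_le_pre {S : Set ℝ} (hS : MeasurableSet S) {A : Set ℝ} {m : ℕ} (hm : 13824 ≤ m)
    (h : ∀ x ∈ A, x ∈ cell m → f x ∈ S) : bb A m ≤ P (bb S) m + 22 * g m := by
  obtain ⟨hok, hrr⟩ := ok hm
  have h2 := up_bound hS hok
  have h4 : bb A m ≤ volume.real (cell m ∩ f ⁻¹' S) := by
    unfold bb
    apply measureReal_mono _ (inter_fin _ _)
    rintro x ⟨hx1, hx2⟩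
    exact ⟨hx2, h x hx1 hx2⟩
  have h5 := qq_le_g (m := m) (by omega)
  linarith

theorem bb_zero {A : Set ℝ} {m : ℕ} (h : ∀ x ∈ A, x ∉ cell m) : bb A m = 0 := by
  unfold bb
  have : A ∩ cell m = ∅ := by
    ext x
    simp only [mem_inter_iff, mem_empty_iff_false, iff_false, not_and]
    exact fun h1 => h x h1
  rw [this]
  simp

theorem up_ind {s : ℝ} (hs : 0 < s) (hs1 : s ≤ 1) : ∃ L0 : ℕ, ∀ L : ℕ, L0 ≤ L → ∀ (n : ℕ) (B : ℝ), 0 < B →
    ∀ m, L / 2 ≤ m →
    bb (Wu L B n) m ≤ Real.exp (3 * s ^ 2 * n) * B ^ (-s) * ((m : ℝ) + 1) ^ s + 2200 * (g (L / 2) - g m) := by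
  obtain ⟨M, hM⟩ := lyap_up hs hs1
  refine ⟨max M 13824, fun L hL => ?_⟩
  have hL1 : 13824 ≤ L := (le_max_right _ _).trans hL
  have hLM : M ≤ L := (le_max_left _ _).trans hL
  have hl1 : 1 ≤ L / 2 := by omega
  have triv : ∀ (n : ℕ) (B : ℝ), 0 < B → ∀ m : ℕ, L / 2 ≤ m → B ≤ (m : ℝ) + 1 → ∀ A : Set ℝ,
      bb A m ≤ Real.exp (3 * s ^ 2 * n) * B ^ (-s) * ((m : ℝ) + 1) ^ s + 2200 * (g (L / 2) - g m) := by
    intro n B hB m hm hBm A
    have h1 := bb_le_one A m
    have h3 := g_anti hl1 hm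
    have h4 : 1 ≤ Real.exp (3 * s ^ 2 * n) := Real.one_le_exp (by positivity)
    have h5 : 1 ≤ B ^ (-s) * ((m : ℝ) + 1) ^ s := by
      rw [Real.rpow_neg hB.le, ← div_eq_inv_mul, one_le_div (Real.rpow_pos_of_pos hB _)]
      exact Real.rpow_le_rpow hB.le hBm hs.le
    have h6 : 1 ≤ Real.exp (3 * s ^ 2 * n) * (B ^ (-s) * ((m : ℝ) + 1) ^ s) := by nlinarith
    rw [← mul_assoc] at h6
    linarith
  intro n
  induction n with
  | zero =>
    intro B hB m hm
    rcases le_or_gt B ((m : ℝ) + 1) with h | h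
    · exact triv 0 B hB m hm h _
    · have h0 : bb (Wu L B 0) m = 0 := by
        apply bb_zero
        rintro x ⟨k, hk, h1, h2⟩ hx
        obtain rfl : k = 0 := by omega
        simp at h2
        linarith [hx.2]
      have h3 := g_anti hl1 hm
      rw [h0]
      exact add_nonneg (by positivity) (by linarith)
  | succ n ih =>
    intro B hB m hm
    rcases le_or_gt B ((m : ℝ) + 1) with h | h
    · exact triv (n + 1) B hB m hm h _
    · have h3 := g_anti hl1 hm
      rcases Nat.lt_or_ge m L with hmL | hmL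
      · have h0 : bb (Wu L B (n + 1)) m = 0 := by
          apply bb_zero
          intro x hx hxc
          have h4 := (wu_step hx (by linarith [hxc.2])).1
          have h5 : ((m + 1 : ℕ) : ℝ) ≤ L := by exact_mod_cast hmL
          push_cast at h5
          linarith [hxc.2]
        rw [h0]
        have : 0 ≤ Real.exp (3 * s ^ 2 * ((n + 1 : ℕ) : ℝ)) * B ^ (-s) * ((m : ℝ) + 1) ^ s := by positivity
        linarith
      · have hB' : 0 < B * Real.exp (-lam) := by positivity
        have h2 := bb_le_pre (S := Wu L (B * Real.exp (-lam)) n) (A := Wu L B (n + 1)) (m := m)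
          (wu_meas _ _ _) (by omega) (fun x hx hxc => (wu_step hx (by linarith [hxc.2])).2)
        set c : ℝ := Real.exp (3 * s ^ 2 * n) * (B * Real.exp (-lam)) ^ (-s) with hc
        have hc0 : 0 ≤ c := by positivity
        have h6 : P (bb (Wu L (B * Real.exp (-lam)) n)) m ≤
            P (fun k => c * ((k : ℝ) + 1) ^ s + 2200 * (g (L / 2) - g k)) m :=
          P_mono fun k hk => ih _ hB' k (by omega)
        have e1 := P_add (fun k : ℕ => c * ((k : ℝ) + 1) ^ s) (fun k => 2200 * (g (L / 2) - g k)) m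
        have e2 := P_smul c (fun k : ℕ => ((k : ℝ) + 1) ^ s) m
        have e3 := P_smul 2200 (fun k : ℕ => g (L / 2) - g k) m
        have e4 := P_sub (fun _ => g (L / 2)) g m
        rw [P_const] at e4
        rw [e1, e2, e3, e4] at h6
        have h7 := lyap_a (m := m) (by omega)
        have h8 := hM m (by omega)
        have h9 : c * P (fun k : ℕ => ((k : ℝ) + 1) ^ s) m ≤
            c * (Real.exp (-(lam * s) + 3 * s ^ 2) * ((m : ℝ) + 1) ^ s) :=
          mul_le_mul_of_nonneg_left h8 hc0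
        have h10 : c * (Real.exp (-(lam * s) + 3 * s ^ 2) * ((m : ℝ) + 1) ^ s) =
            Real.exp (3 * s ^ 2 * ((n + 1 : ℕ) : ℝ)) * B ^ (-s) * ((m : ℝ) + 1) ^ s := by
          rw [hc, Real.mul_rpow hB.le (Real.exp_pos _).le, ← Real.exp_mul]
          have : Real.exp (3 * s ^ 2 * ((n + 1 : ℕ) : ℝ)) = Real.exp (3 * s ^ 2 * n) *
              Real.exp (-lam * -s) * Real.exp (-(lam * s) + 3 * s ^ 2) := by
            rw [← Real.exp_add, ← Real.exp_add]
            congr 1
            push_cast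
            ring
          rw [this]
          ring
        linarith

theorem down_ind {s : ℝ} (hs : 0 < s) (hs1 : s ≤ 1) : ∃ L0 : ℕ, ∀ L : ℕ, L0 ≤ L → ∀ (n : ℕ) (B : ℝ), 0 < B →
    ∀ m, L / 2 ≤ m →
    bb (Wd L B n) m ≤ Real.exp (3 * s ^ 2 * n) * B ^ s * (m : ℝ) ^ (-s) + 2200 * (g (L / 2) - g m) := by
  obtain ⟨M, hM⟩ := lyap_down hs hs1
  refine ⟨max M 13824, fun L hL => ?_⟩
  have hL1 : 13824 ≤ L := (le_max_right _ _).trans hL
  have hLM : M ≤ L := (le_max_left _ _).trans hL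
  have hl1 : 1 ≤ L / 2 := by omega
  have triv : ∀ (n : ℕ) (B : ℝ), 0 < B → ∀ m : ℕ, L / 2 ≤ m → (m : ℝ) ≤ B → ∀ A : Set ℝ,
      bb A m ≤ Real.exp (3 * s ^ 2 * n) * B ^ s * (m : ℝ) ^ (-s) + 2200 * (g (L / 2) - g m) := by
    intro n B hB m hm hBm A
    have hm0 : (0 : ℝ) < m := by exact_mod_cast (by omega : 0 < m)
    have h1 := bb_le_one A m
    have h3 := g_anti hl1 hm
    have h4 : 1 ≤ Real.exp (3 * s ^ 2 * n) := Real.one_le_exp (by positivity)
    have h5 : 1 ≤ B ^ s * (m : ℝ) ^ (-s) := by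
      rw [Real.rpow_neg hm0.le, ← div_eq_mul_inv, one_le_div (Real.rpow_pos_of_pos hm0 _)]
      exact Real.rpow_le_rpow hm0.le hBm hs.le
    have h6 : 1 ≤ Real.exp (3 * s ^ 2 * n) * (B ^ s * (m : ℝ) ^ (-s)) := by nlinarith
    rw [← mul_assoc] at h6
    linarith
  intro n
  induction n with
  | zero =>
    intro B hB m hm
    have hm0 : (0 : ℝ) < m := by exact_mod_cast (by omega : 0 < m)
    rcases le_or_gt (m : ℝ) B with h | h
    · exact triv 0 B hB m hm h _
    · have h0 : bb (Wd L B 0) m = 0 := by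
        apply bb_zero
        rintro x ⟨k, hk, h1, h2⟩ hx
        obtain rfl : k = 0 := by omega
        simp at h2
        linarith [hx.1]
      have h3 := g_anti hl1 hm
      rw [h0]
      exact add_nonneg (by positivity) (by linarith)
  | succ n ih =>
    intro B hB m hm
    have hm0 : (0 : ℝ) < m := by exact_mod_cast (by omega : 0 < m)
    rcases le_or_gt (m : ℝ) B with h | h
    · exact triv (n + 1) B hB m hm h _
    · have h3 := g_anti hl1 hm
      rcases Nat.lt_or_ge m L with hmL | hmL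
      · have h0 : bb (Wd L B (n + 1)) m = 0 := by
          apply bb_zero
          intro x hx hxc
          have h4 := (wd_step hx (by linarith [hxc.1])).1
          have h5 : ((m + 1 : ℕ) : ℝ) ≤ L := by exact_mod_cast hmL
          push_cast at h5
          linarith [hxc.2]
        rw [h0]
        have : 0 ≤ Real.exp (3 * s ^ 2 * ((n + 1 : ℕ) : ℝ)) * B ^ s * (m : ℝ) ^ (-s) := by positivity
        linarith
      · have hB' : 0 < B * Real.exp (-lam) := by positivity
        have h2 := bb_le_pre (S := Wd L (B * Real.exp (-lam)) n) (A := Wd L B (n + 1)) (m := m)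
          (wd_meas _ _ _) (by omega) (fun x hx hxc => (wd_step hx (by linarith [hxc.1])).2)
        set c : ℝ := Real.exp (3 * s ^ 2 * n) * (B * Real.exp (-lam)) ^ s with hc
        have hc0 : 0 ≤ c := by positivity
        have h6 : P (bb (Wd L (B * Real.exp (-lam)) n)) m ≤
            P (fun k => c * (k : ℝ) ^ (-s) + 2200 * (g (L / 2) - g k)) m :=
          P_mono fun k hk => ih _ hB' k (by omega)
        have e1 := P_add (fun k : ℕ => c * (k : ℝ) ^ (-s)) (fun k => 2200 * (g (L / 2) - g k)) m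
        have e2 := P_smul c (fun k : ℕ => (k : ℝ) ^ (-s)) m
        have e3 := P_smul 2200 (fun k : ℕ => g (L / 2) - g k) m
        have e4 := P_sub (fun _ => g (L / 2)) g m
        rw [P_const] at e4
        rw [e1, e2, e3, e4] at h6
        have h7 := lyap_a (m := m) (by omega)
        have h8 := hM m (by omega)
        have h9 : c * P (fun k : ℕ => (k : ℝ) ^ (-s)) m ≤
            c * (Real.exp (lam * s + 3 * s ^ 2) * (m : ℝ) ^ (-s)) :=
          mul_le_mul_of_nonneg_left h8 hc0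
        have h10 : c * (Real.exp (lam * s + 3 * s ^ 2) * (m : ℝ) ^ (-s)) =
            Real.exp (3 * s ^ 2 * ((n + 1 : ℕ) : ℝ)) * B ^ s * (m : ℝ) ^ (-s) := by
          rw [hc, Real.mul_rpow hB.le (Real.exp_pos _).le, ← Real.exp_mul]
          have : Real.exp (3 * s ^ 2 * ((n + 1 : ℕ) : ℝ)) = Real.exp (3 * s ^ 2 * n) *
              Real.exp (-lam * s) * Real.exp (lam * s + 3 * s ^ 2) := by
            rw [← Real.exp_add, ← Real.exp_add]
            congr 1
            push_cast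
            ring
          rw [this]
          ring
        linarith

end Pool.Agent.K9h56.CR
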