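import Pool.Agent.K9h56.CR.Log
import Pool.Agent.W40.Ch.A11

/-!
One step of the process `f^k(x)`, `x` uniform in `[m, m+1)`: exponential moments of the logarithm.
-/

set_option autoImplicit false
set_option linter.all false

namespace Pool.Agent.K9h56.CR

open Real MeasureTheory Set
open Pool.Agent.H934R2.Ch (f df hasDerivAt_f continuous_f continuous_df)
open Pool.Agent.W40.Ch

/-- the multiplier -/
noncomputable def yy (x : ℝ) : ℝ := 1 - Real.cos (π * x) / 2

theorem yy_lb (x : ℝ) : 1 / 2 ≤ yy x := by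
  unfold yy
  have := Real.cos_le_one (π * x)
  linarith

theorem yy_ub (x : ℝ) : yy x ≤ 3 / 2 := by
  unfold yy
  have := Real.neg_one_le_cos (π * x)
  linarith

theorem yy_pos (x : ℝ) : 0 < yy x := by linarith [yy_lb x]

theorem continuous_yy : Continuous yy := by unfold yy; fun_prop

theorem continuous_log_yy : Continuous fun x => Real.log (yy x) :=
  continuous_yy.log fun x => (yy_pos x).ne'

theorem abs_log_yy (x : ℝ) : |Real.log (yy x)| ≤ 1 := by
  rw [abs_le]
  constructor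
  · have h1 := Real.log_le_log (by norm_num) (yy_lb x)
    have h2 : Real.log (1 / 2) = - Real.log 2 := by rw [one_div, Real.log_inv]
    have h3 := Real.log_two_lt_d9
    linarith
  · have h1 := Real.log_le_sub_one_of_pos (yy_pos x)
    linarith [yy_ub x]

theorem rpow_yy {s : ℝ} (hs : |s| ≤ 1) (x : ℝ) : (yy x) ^ s ≤ 1 + s * Real.log (yy x) + s ^ 2 := by
  rw [Real.rpow_def_of_pos (yy_pos x)]
  have h1 := abs_log_yy x
  have h2 : |Real.log (yy x) * s| ≤ 1 := by
    rw [abs_mul]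
    exact mul_le_one₀ h1 (abs_nonneg _) hs
  have h3 := (abs_le.1 (Real.abs_exp_sub_one_sub_id_le h2)).2
  have h4 : (Real.log (yy x) * s) ^ 2 ≤ s ^ 2 := by
    rw [mul_pow]
    have : (Real.log (yy x)) ^ 2 ≤ 1 := by
      rw [← sq_abs]
      exact pow_le_one₀ (abs_nonneg _) h1
    nlinarith [sq_nonneg s]
  linarith

theorem int_log (m : ℕ) : ∫ x in cell m, Real.log (yy x) = - lam := by
  unfold cell
  rw [integral_Ico_eq_integral_Ioc, ← intervalIntegral.integral_of_le (by linarith)]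
  exact int_cell m

theorem int_lin (m : ℕ) (K a b : ℝ) :
    ∫ x in cell m, K * (a + b * Real.log (yy x)) = K * (a - b * lam) := by
  have hi : ∀ F : ℝ → ℝ, Continuous F → IntegrableOn F (cell m) := fun F hF =>
    (hF.continuousOn.integrableOn_Icc (a := (m : ℝ)) (b := m + 1)).mono_set (cell_sub m)
  have e1 : ∫ x in cell m, (a + b * Real.log (yy x)) = (∫ x in cell m, a) + ∫ x in cell m, b * Real.log (yy x) :=
    integral_add (hi (fun _ => a) continuous_const)
      (hi (fun x => b * Real.log (yy x)) (continuous_const.mul continuous_log_yy))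
  rw [integral_const_mul, e1, integral_const_mul, int_log]
  have : ∫ x in cell m, a = a := by
    rw [setIntegral_const, cell_vol, one_smul]
  rw [this]
  ring

theorem f_yy (x : ℝ) : f x = x * yy x + 1 / 4 + (yy x - 1) / 2 := by
  rw [f_eq]
  unfold yy
  ring

theorem floor_ub {m : ℕ} {x : ℝ} (hx : x ∈ cell m) : ((⌊f x⌋₊ : ℕ) : ℝ) + 1 ≤ (m + 4) * yy x := by
  have hx0 : (0 : ℝ) ≤ x := le_trans (by positivity) hx.1
  have h0 : 0 ≤ f x := le_trans (by linarith) (f_lb hx0)
  have h1 := Nat.floor_le h0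
  have h2 := f_yy x
  have h3 : x * yy x ≤ (m + 1) * yy x := mul_le_mul_of_nonneg_right hx.2.le (yy_pos x).le
  have h4 := yy_lb x
  have h5 := yy_ub x
  nlinarith

theorem floor_lb {m : ℕ} {x : ℝ} (hx : x ∈ cell m) : ((m : ℝ) - 2) * yy x ≤ ((⌊f x⌋₊ : ℕ) : ℝ) := by
  have hx0 : (0 : ℝ) ≤ x := le_trans (by positivity) hx.1
  have h1 := Nat.lt_floor_add_one (f x)
  have h2 := f_yy x
  have h3 : m * yy x ≤ x * yy x := mul_le_mul_of_nonneg_right hx.1 (yy_pos x).le
  have h4 := yy_lb x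
  nlinarith

/-- upward Lyapunov function -/
theorem lyap_up {s : ℝ} (hs : 0 < s) (hs1 : s ≤ 1) : ∃ M : ℕ, ∀ m : ℕ, M ≤ m →
    P (fun k => ((k : ℝ) + 1) ^ s) m ≤ Real.exp (-(lam * s) + 3 * s ^ 2) * ((m : ℝ) + 1) ^ s := by
  obtain ⟨M, hM⟩ := exists_nat_ge (3 / s)
  refine ⟨M, fun m hm => ?_⟩
  have hm' : 3 / s ≤ (m : ℝ) := hM.trans (by exact_mod_cast hm)
  have hm0 : (0 : ℝ) ≤ m := by positivity
  have h1 := P_le_int (m := m) (u := fun k => ((k : ℝ) + 1) ^ s)
    (G := fun x => ((m : ℝ) + 4) ^ s * ((1 + s ^ 2) + s * Real.log (yy x)))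
    (by
      apply Continuous.mul continuous_const
      exact continuous_const.add (continuous_const.mul continuous_log_yy)) (by
      intro x hx
      have h2 := floor_ub hx
      have h3 : (((⌊f x⌋₊ : ℕ) : ℝ) + 1) ^ s ≤ ((m + 4) * yy x) ^ s :=
        Real.rpow_le_rpow (by positivity) h2 hs.le
      refine h3.trans ?_
      rw [Real.mul_rpow (by positivity) (yy_pos x).le]
      apply mul_le_mul_of_nonneg_left _ (by positivity)
      have := rpow_yy (s := s) (by rw [abs_of_pos hs]; exact hs1) x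
      linarith)
  rw [int_lin] at h1
  refine h1.trans ?_
  have h2 : ((m : ℝ) + 4) ^ s ≤ ((m : ℝ) + 1) ^ s * Real.exp (s ^ 2) := by
    have e1 : (m : ℝ) + 4 = (m + 1) * (1 + 3 / (m + 1)) := by field_simp; ring
    rw [e1, Real.mul_rpow (by positivity) (by positivity)]
    apply mul_le_mul_of_nonneg_left _ (by positivity)
    have e2 : 1 + 3 / ((m : ℝ) + 1) ≤ Real.exp (3 / (m + 1)) := by
      have := Real.add_one_le_exp (3 / ((m : ℝ) + 1))
      linarith
    calc (1 + 3 / ((m : ℝ) + 1)) ^ s ≤ (Real.exp (3 / (m + 1))) ^ s :=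
          Real.rpow_le_rpow (by positivity) e2 hs.le
      _ = Real.exp (3 / (m + 1) * s) := by rw [← Real.exp_mul]
      _ ≤ Real.exp (s ^ 2) := by
          apply Real.exp_le_exp.2
          have e3 : 3 / ((m : ℝ) + 1) ≤ s := by
            rw [div_le_iff₀ (by positivity)]
            rw [div_le_iff₀ hs] at hm'
            nlinarith
          nlinarith
  have h3 : (1 + s ^ 2) - s * lam ≤ Real.exp (s ^ 2 - lam * s) := by
    have := Real.add_one_le_exp (s ^ 2 - lam * s)
    linarith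
  calc ((m : ℝ) + 4) ^ s * ((1 + s ^ 2) - s * lam)
      ≤ ((m : ℝ) + 4) ^ s * Real.exp (s ^ 2 - lam * s) :=
        mul_le_mul_of_nonneg_left h3 (by positivity)
    _ ≤ (((m : ℝ) + 1) ^ s * Real.exp (s ^ 2)) * Real.exp (s ^ 2 - lam * s) :=
        mul_le_mul_of_nonneg_right h2 (Real.exp_pos _).le
    _ = Real.exp (s ^ 2 + (s ^ 2 - lam * s)) * ((m : ℝ) + 1) ^ s := by
        rw [Real.exp_add]; ring
    _ ≤ _ := by
        apply mul_le_mul_of_nonneg_right _ (by positivity)
        apply Real.exp_le_exp.2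
        nlinarith [sq_nonneg s]

/-- downward Lyapunov function -/
theorem lyap_down {s : ℝ} (hs : 0 < s) (hs1 : s ≤ 1) : ∃ M : ℕ, ∀ m : ℕ, M ≤ m →
    P (fun k => (k : ℝ) ^ (-s)) m ≤ Real.exp (lam * s + 3 * s ^ 2) * (m : ℝ) ^ (-s) := by
  obtain ⟨M, hM⟩ := exists_nat_ge (2 + 2 / s)
  refine ⟨M, fun m hm => ?_⟩
  have hm' : 2 + 2 / s ≤ (m : ℝ) := hM.trans (by exact_mod_cast hm)
  have hs2 : 0 < 2 / s := by positivity
  have hm2 : (2 : ℝ) < m := by linarith
  have h1 := P_le_int (m := m) (u := fun k => (k : ℝ) ^ (-s))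
    (G := fun x => ((m : ℝ) - 2) ^ (-s) * ((1 + s ^ 2) + (-s) * Real.log (yy x)))
    (by
      apply Continuous.mul continuous_const
      exact continuous_const.add (continuous_const.mul continuous_log_yy)) (by
      intro x hx
      have h2 := floor_lb hx
      have h0 : 0 < ((m : ℝ) - 2) * yy x := mul_pos (by linarith) (yy_pos x)
      have h3 : ((⌊f x⌋₊ : ℕ) : ℝ) ^ (-s) ≤ (((m : ℝ) - 2) * yy x) ^ (-s) :=
        Real.rpow_le_rpow_of_nonpos h0 h2 (by linarith)
      refine h3.trans ?_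
      rw [Real.mul_rpow (by linarith) (yy_pos x).le]
      apply mul_le_mul_of_nonneg_left _ (Real.rpow_nonneg (by linarith) _)
      have := rpow_yy (s := -s) (by rw [abs_neg, abs_of_pos hs]; exact hs1) x
      rw [neg_sq] at this
      linarith)
  rw [int_lin] at h1
  refine h1.trans ?_
  have h2 : ((m : ℝ) - 2) ^ (-s) ≤ (m : ℝ) ^ (-s) * Real.exp (s ^ 2) := by
    have e1 : (m : ℝ) = ((m : ℝ) - 2) * (1 + 2 / ((m : ℝ) - 2)) := by
      have : (m : ℝ) - 2 ≠ 0 := by linarith
      field_simp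
      ring
    have e2 : (m : ℝ) ^ s ≤ ((m : ℝ) - 2) ^ s * Real.exp (s ^ 2) := by
      have hm20 : (0 : ℝ) < (m : ℝ) - 2 := by linarith
      have e4 : 1 + 2 / ((m : ℝ) - 2) ≤ Real.exp (2 / ((m : ℝ) - 2)) := by
        have := Real.add_one_le_exp (2 / ((m : ℝ) - 2))
        linarith
      have e5 : (1 + 2 / ((m : ℝ) - 2)) ^ s ≤ Real.exp (s ^ 2) := by
        calc (1 + 2 / ((m : ℝ) - 2)) ^ s ≤ (Real.exp (2 / ((m : ℝ) - 2))) ^ s :=
              Real.rpow_le_rpow (by positivity) e4 hs.le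
          _ = Real.exp (2 / ((m : ℝ) - 2) * s) := by rw [← Real.exp_mul]
          _ ≤ Real.exp (s ^ 2) := by
              apply Real.exp_le_exp.2
              have e3 : 2 / ((m : ℝ) - 2) ≤ s := by
                rw [div_le_iff₀ hm20]
                have : 2 / s ≤ (m : ℝ) - 2 := by linarith
                rw [div_le_iff₀ hs] at this
                linarith
              nlinarith
      calc (m : ℝ) ^ s = (((m : ℝ) - 2) * (1 + 2 / ((m : ℝ) - 2))) ^ s := by rw [← e1]
        _ = ((m : ℝ) - 2) ^ s * (1 + 2 / ((m : ℝ) - 2)) ^ s := Real.mul_rpow hm20.le (by positivity)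
        _ ≤ _ := mul_le_mul_of_nonneg_left e5 (by positivity)
    have hp1 : 0 < ((m : ℝ) - 2) ^ s := Real.rpow_pos_of_pos (by linarith) _
    have hp2 : 0 < (m : ℝ) ^ s := Real.rpow_pos_of_pos (by linarith) _
    rw [Real.rpow_neg (by linarith), Real.rpow_neg (by linarith)]
    rw [inv_eq_one_div, inv_eq_one_div, div_mul_eq_mul_div, one_mul, div_le_div_iff₀ hp1 hp2]
    linarith
  have h3 : (1 + s ^ 2) - (-s) * lam ≤ Real.exp (s ^ 2 + lam * s) := by
    have := Real.add_one_le_exp (s ^ 2 + lam * s)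
    linarith
  have hp : 0 ≤ ((m : ℝ) - 2) ^ (-s) := Real.rpow_nonneg (by linarith) _
  calc ((m : ℝ) - 2) ^ (-s) * ((1 + s ^ 2) - (-s) * lam)
      ≤ ((m : ℝ) - 2) ^ (-s) * Real.exp (s ^ 2 + lam * s) := mul_le_mul_of_nonneg_left h3 hp
    _ ≤ ((m : ℝ) ^ (-s) * Real.exp (s ^ 2)) * Real.exp (s ^ 2 + lam * s) :=
        mul_le_mul_of_nonneg_right h2 (Real.exp_pos _).le
    _ = Real.exp (s ^ 2 + (s ^ 2 + lam * s)) * (m : ℝ) ^ (-s) := by
        rw [Real.exp_add (s ^ 2) (s ^ 2 + lam * s)]; ring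
    _ ≤ _ := by
        apply mul_le_mul_of_nonneg_right _ (by positivity)
        apply Real.exp_le_exp.2
        nlinarith [sq_nonneg s]

end Pool.Agent.K9h56.CR
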