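import Pool.Agent.K9h56.CR.Path

/-!
The random walk with steps `log (1 - cos (π u) / 2)`, `u` uniform in `[0, 1]`, and lists of integers which
follow it.
-/

set_option autoImplicit false
set_option linter.all false

namespace Pool.Agent.K9h56.CR

open Real MeasureTheory Set
open Pool.Agent.H934R2.Ch (f df hasDerivAt_f continuous_f continuous_df)
open Pool.Agent.W40.Ch

/-- the partial sums of the walk -/
noncomputable def lw (N : ℕ) (u : Fin N → ℝ) (i : ℕ) : ℝ :=
  ∑ j : Fin N, if (j : ℕ) < i then Real.log (yy (u j)) else 0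

/-- the list follows the walk which starts at `c` -/
def Near (η : ℝ) (N : ℕ) (h : List ℕ) (c : ℝ) (u : Fin N → ℝ) : Prop :=
  h.length ≤ N + 1 ∧ ∀ i : ℕ, i < h.length → |Real.log ((h.getD i 0 : ℕ) : ℝ) - (c + lw N u i)| ≤ η

theorem lw_zero (N : ℕ) (u : Fin N → ℝ) : lw N u 0 = 0 := by
  unfold lw
  apply Finset.sum_eq_zero
  intro j _
  rw [if_neg (Nat.not_lt_zero _)]

theorem lw_succ (N : ℕ) (u : Fin (N + 1) → ℝ) (i : ℕ) :
    lw (N + 1) u (i + 1) = Real.log (yy (u 0)) + lw N (fun j => u j.succ) i := by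
  unfold lw
  rw [Fin.sum_univ_succ]
  rw [if_pos (by simp)]
  congr 1
  apply Finset.sum_congr rfl
  intro j _
  simp only [Fin.val_succ, Nat.add_lt_add_iff_right]

theorem near_shift {η δ : ℝ} {N : ℕ} {h : List ℕ} {c c' : ℝ} {u : Fin N → ℝ} (hn : Near η N h c u)
    (hc : |c - c'| ≤ δ) : Near (η + δ) N h c' u := by
  refine ⟨hn.1, fun i hi => ?_⟩
  have h1 := hn.2 i hi
  rw [abs_le] at h1 hc ⊢
  constructor <;> linarith [h1.1, h1.2, hc.1, hc.2]

theorem near_cons {η : ℝ} {N : ℕ} {h : List ℕ} {c : ℝ} {u : Fin (N + 1) → ℝ} {n : ℕ}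
    (hn : Near η N h (c + Real.log (yy (u 0))) (fun j => u j.succ))
    (hc : |Real.log (n : ℝ) - c| ≤ η) : Near η (N + 1) (n :: h) c u := by
  refine ⟨by simpa using hn.1, fun i hi => ?_⟩
  rcases i with _ | i
  · rw [lw_zero, add_zero]
    simpa using hc
  · have h1 := hn.2 i (by simpa using hi)
    rw [lw_succ, List.getD_cons_succ]
    rwa [add_assoc] at h1

theorem near_single {η : ℝ} (hη : 0 ≤ η) (N m : ℕ) (u : Fin N → ℝ) : Near η N [m] (Real.log m) u := by
  refine ⟨by simp, fun i hi => ?_⟩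
  have h0 : i = 0 := by simpa using hi
  subst h0
  rw [lw_zero]
  simpa using hη

/-- uniform distribution -/
noncomputable def uu : Measure ℝ := volume.restrict (Icc (0 : ℝ) 1)

instance uu_prob : IsProbabilityMeasure uu := by
  refine ⟨?_⟩
  unfold uu
  rw [Measure.restrict_apply_univ, Real.volume_Icc]
  norm_num

/-- the set of the walks followed by a list of `A` -/
def FF (η : ℝ) (N : ℕ) (A : Set (List ℕ)) : Set (ℝ × (Fin N → ℝ)) := {p | ∃ h ∈ A, Near η N h p.1 p.2}

theorem lw_meas (N i : ℕ) : Measurable fun u : Fin N → ℝ => lw N u i := by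
  unfold lw
  apply Finset.measurable_sum
  intro j _
  split_ifs
  · exact continuous_log_yy.measurable.comp (measurable_pi_apply j)
  · exact measurable_const

theorem ff_meas (η : ℝ) (N : ℕ) (A : Set (List ℕ)) : MeasurableSet (FF η N A) := by
  have e : FF η N A = ⋃ h : List ℕ, ⋃ _ : h ∈ A ∧ h.length ≤ N + 1, ⋂ i : ℕ, ⋂ _ : i < h.length,
      {p : ℝ × (Fin N → ℝ) | |Real.log ((h.getD i 0 : ℕ) : ℝ) - (p.1 + lw N p.2 i)| ≤ η} := by
    ext p
    simp only [FF, Near, mem_setOf_eq, mem_iUnion, mem_iInter, exists_prop]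
    constructor
    · rintro ⟨h, hA, h1, h2⟩
      exact ⟨h, ⟨hA, h1⟩, h2⟩
    · rintro ⟨h, ⟨hA, h1⟩, h2⟩
      exact ⟨h, hA, h1, h2⟩
  rw [e]
  refine MeasurableSet.iUnion fun h => MeasurableSet.iUnion fun _ => MeasurableSet.iInter fun i =>
    MeasurableSet.iInter fun _ => ?_
  apply measurableSet_le _ measurable_const
  apply Measurable.abs
  exact measurable_const.sub (measurable_fst.add ((lw_meas N i).comp measurable_snd))

/-- the probability that the walk started at `c` is followed by a list of `A` -/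
noncomputable def GG (η : ℝ) (N : ℕ) (A : Set (List ℕ)) (c : ℝ) : ℝ :=
  (Measure.pi fun _ : Fin N => uu).real {u | ∃ h ∈ A, Near η N h c u}

theorem gg_le_one (η : ℝ) (N : ℕ) (A : Set (List ℕ)) (c : ℝ) : GG η N A c ≤ 1 := measureReal_le_one

theorem gg_nonneg (η : ℝ) (N : ℕ) (A : Set (List ℕ)) (c : ℝ) : 0 ≤ GG η N A c := measureReal_nonneg

theorem gg_meas (η : ℝ) (N : ℕ) (A : Set (List ℕ)) : Measurable (GG η N A) := by
  have h := measurable_measure_prodMk_left (ν := Measure.pi fun _ : Fin N => uu) (ff_meas η N A)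
  exact h.ennreal_toReal

theorem gg_shift {η δ : ℝ} (N : ℕ) (A : Set (List ℕ)) {c c' : ℝ} (hc : |c - c'| ≤ δ) :
    GG η N A c ≤ GG (η + δ) N A c' := by
  unfold GG
  refine measureReal_mono ?_ (measure_ne_top _ _)
  rintro u ⟨h, hA, hn⟩
  exact ⟨h, hA, near_shift hn hc⟩

theorem gg_one {η : ℝ} (hη : 0 ≤ η) (N : ℕ) {A : Set (List ℕ)} {m : ℕ} (h : [m] ∈ A) :
    GG η N A (Real.log m) = 1 := by
  unfold GG
  have : {u : Fin N → ℝ | ∃ h ∈ A, Near η N h (Real.log m) u} = univ := by
    ext u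
    simp only [mem_setOf_eq, mem_univ, iff_true]
    exact ⟨_, h, near_single hη N m u⟩
  rw [this]
  simp

/-- one more step -/
theorem gg_step {η : ℝ} (N : ℕ) (A : Set (List ℕ)) (c : ℝ) {n : ℕ}
    (hc : |Real.log (n : ℝ) - c| ≤ η) :
    ∫ x, GG η N {h | n :: h ∈ A} (c + Real.log (yy x)) ∂uu ≤ GG η (N + 1) A c := by
  set A' : Set (List ℕ) := {h | n :: h ∈ A} with hA'
  have hmp := measurePreserving_piFinSuccAbove (fun _ : Fin (N + 1) => uu) 0
  set T : Set (ℝ × (Fin N → ℝ)) := {p | (c + Real.log (yy p.1), p.2) ∈ FF η N A'} with hT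
  have hTm : MeasurableSet T := by
    have : Measurable fun p : ℝ × (Fin N → ℝ) => (c + Real.log (yy p.1), p.2) :=
      (measurable_const.add (continuous_log_yy.measurable.comp measurable_fst)).prodMk measurable_snd
    exact this (ff_meas η N A')
  have h1 : ∫ x, GG η N A' (c + Real.log (yy x)) ∂uu =
      (uu.prod (Measure.pi fun _ : Fin N => uu)).real T := by
    rw [Measure.real, Measure.prod_apply hTm, ← integral_toReal]
    · rfl
    · exact (measurable_measure_prodMk_left hTm).aemeasurable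
    · exact Filter.Eventually.of_forall fun x => measure_lt_top _ _
  rw [h1]
  have h2 : (uu.prod (Measure.pi fun _ : Fin N => uu)).real T =
      (Measure.pi fun _ : Fin (N + 1) => uu).real
        ((MeasurableEquiv.piFinSuccAbove (fun _ : Fin (N + 1) => ℝ) 0) ⁻¹' T) := by
    rw [Measure.real, Measure.real, hmp.measure_preimage hTm.nullMeasurableSet]
  rw [h2]
  unfold GG
  refine measureReal_mono ?_ (measure_ne_top _ _)
  intro u hu
  simp only [mem_preimage, hT, mem_setOf_eq, FF] at hu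
  obtain ⟨h, hA, hn⟩ := hu
  refine ⟨n :: h, hA, near_cons ?_ hc⟩
  exact hn

/-- the transition operator is an integral -/
theorem P_eq_int (m : ℕ) (u : ℕ → ℝ) : P u m = ∫ x in cell m, u ⌊f x⌋₊ := by
  have hcov : cell m = ⋃ k ∈ Finset.range (2 * m + 3), (cell m ∩ f ⁻¹' cell k) := by
    ext x
    simp only [mem_inter_iff, mem_iUnion, mem_preimage, exists_prop]
    constructor
    · intro h1
      have hx0 : (0 : ℝ) ≤ x := le_trans (by positivity) h1.1
      exact ⟨_, floor_range h1, h1, mem_cell_floor (le_trans (by linarith) (f_lb hx0))⟩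
    · rintro ⟨k, _, h1, _⟩
      exact h1
  have hval : ∀ k, ∀ x ∈ cell m ∩ f ⁻¹' cell k, u ⌊f x⌋₊ = u k := by
    intro k x hx
    have h4 : f x ∈ cell k := hx.2
    have h3 : ⌊f x⌋₊ = k := (Nat.floor_eq_iff (le_trans (by positivity) h4.1)).2 ⟨h4.1, h4.2⟩
    rw [h3]
  have hm : ∀ k, MeasurableSet (cell m ∩ f ⁻¹' cell k) := fun k => (cell_meas m).inter (pre_meas (cell_meas k))
  conv_rhs => rw [hcov]
  rw [integral_biUnion_finset]
  · unfold P
    apply Finset.sum_congr rfl
    intro k _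
    rw [setIntegral_congr_fun (hm k) (hval k), setIntegral_const]
    rfl
  · intro k _
    exact hm k
  · intro i _ j _ hij
    rw [Function.onFun, Set.disjoint_left]
    intro x hx hy
    exact Set.disjoint_left.1 (cells_disj hij) hx.2 hy.2
  · intro k _
    exact (integrableOn_congr_fun (hval k) (hm k)).2 (integrableOn_const (inter_fin _ _))

/-- the distribution of the multiplier is the same on all cells -/
theorem int_yy (m : ℕ) (H : ℝ → ℝ) : ∫ x in cell m, H (yy x) = ∫ x, H (yy x) ∂uu := by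
  have e0 : ∫ x, H (yy x) ∂uu = ∫ x in (0 : ℝ)..1, H (yy x) := by
    unfold uu
    rw [integral_Icc_eq_integral_Ioc, ← intervalIntegral.integral_of_le (by norm_num)]
  have e1 : ∫ x in cell m, H (yy x) = ∫ x in (m : ℝ)..m + 1, H (yy x) := by
    unfold cell
    rw [integral_Ico_eq_integral_Ioc, ← intervalIntegral.integral_of_le (by linarith)]
  rw [e0, e1]
  rcases Nat.even_or_odd' m with ⟨k, hk | hk⟩
  · have h1 : ∀ x : ℝ, yy x = yy (x - m) := by
      intro x
      unfold yy
      have : π * (x - m) = π * x - k * (2 * π) := by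
        rw [hk]; push_cast; ring
      rw [this, Real.cos_sub_nat_mul_two_pi]
    have h2 := intervalIntegral.integral_comp_sub_right (fun x => H (yy x)) (m : ℝ) (a := (m : ℝ)) (b := m + 1)
    simp only [← h1] at h2
    rw [h2]
    congr 1
    · ring
    · ring
  · have h1 : ∀ x : ℝ, yy x = yy ((m + 1 : ℝ) - x) := by
      intro x
      unfold yy
      have : π * ((m + 1 : ℝ) - x) = ((k + 1 : ℕ) : ℝ) * (2 * π) - π * x := by
        rw [hk]; push_cast; ring
      rw [this, Real.cos_nat_mul_two_pi_sub]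
    have h2 := intervalIntegral.integral_comp_sub_left (fun x => H (yy x)) ((m : ℝ) + 1) (a := (m : ℝ)) (b := m + 1)
    simp only [← h1] at h2
    rw [h2]
    congr 1
    · ring
    · ring

end Pool.Agent.K9h56.CR
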